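import Mathlib

/-!
Turán's sieve for integer vectors in a box.
-/

namespace Pool.Agent.Work.MP_223b32_ag_56

open Finset

theorem count_res (M m : ℕ) (hm : 0 < m) (c : ZMod m) :
    |(((Icc (-(M : ℤ)) M).filter fun b : ℤ => (b : ZMod m) = c).card : ℝ) - (2 * M + 1) / m| ≤ 1 := by
  obtain ⟨v, rfl⟩ := ZMod.intCast_surjective c
  have h1 : (Icc (-(M : ℤ)) M).filter (fun b : ℤ => (b : ZMod m) = (v : ZMod m)) =
      (Ico (-(M : ℤ)) (M + 1)).filter (fun b => b ≡ v [ZMOD m]) := by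
    ext b
    simp only [mem_filter, mem_Icc, mem_Ico, Int.lt_add_one_iff]
    rw [ZMod.intCast_eq_intCast_iff]
  rw [h1]
  have h2 := Int.Ico_filter_modEq_card (-(M : ℤ)) (M + 1) (r := (m : ℤ)) (by exact_mod_cast hm) v
  have hm' : (0 : ℝ) < m := by exact_mod_cast hm
  have h3 : (((#{x ∈ Ico (-(M : ℤ)) (M + 1) | x ≡ v [ZMOD m]} : ℕ) : ℤ) : ℝ) =
      ((max (⌈(((M + 1 : ℤ) - v : ℤ) : ℚ) / (m : ℤ)⌉ - ⌈((-(M : ℤ) - v : ℤ) : ℚ) / (m : ℤ)⌉) 0 : ℤ) : ℝ) := by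
    rw [h2]
    push_cast
    rfl
  rw [Int.cast_natCast] at h3
  rw [h3]
  have a1 := Int.ceil_lt_add_one ((((M + 1 : ℤ) - v : ℤ) : ℚ) / (m : ℤ))
  have a2 := Int.le_ceil ((((M + 1 : ℤ) - v : ℤ) : ℚ) / (m : ℤ))
  have a3 := Int.ceil_lt_add_one (((-(M : ℤ) - v : ℤ) : ℚ) / (m : ℤ))
  have a4 := Int.le_ceil (((-(M : ℤ) - v : ℤ) : ℚ) / (m : ℤ))
  set A := ⌈(((M + 1 : ℤ) - v : ℤ) : ℚ) / (m : ℤ)⌉
  set B := ⌈((-(M : ℤ) - v : ℤ) : ℚ) / (m : ℤ)⌉
  have b1 : (A : ℝ) < ((M : ℝ) + 1 - v) / m + 1 := by exact_mod_cast a1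
  have b2 : ((M : ℝ) + 1 - v) / m ≤ A := by exact_mod_cast a2
  have b3 : (B : ℝ) < (-(M : ℝ) - v) / m + 1 := by exact_mod_cast a3
  have b4 : (-(M : ℝ) - v) / m ≤ B := by exact_mod_cast a4
  have e1 : ((M : ℝ) + 1 - v) / m - (-(M : ℝ) - v) / m = (2 * M + 1) / m := by
    rw [← sub_div]; congr 1; ring
  have hpos : 0 ≤ (2 * (M : ℝ) + 1) / m := by positivity
  rw [abs_le, Int.cast_max, Int.cast_sub, Int.cast_zero]
  constructor
  · have : (A : ℝ) - B ≤ max ((A : ℝ) - B) 0 := le_max_left _ _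
    linarith
  · rcases le_total ((A : ℝ) - B) 0 with h | h
    · rw [max_eq_right h]; linarith
    · rw [max_eq_left h]; linarith

theorem prod_close {ι : Type*} (s : Finset ι) (x A : ι → ℝ) {ρ : ℝ} (hρ1 : ρ ≤ 1)
    (hA : ∀ i ∈ s, 0 ≤ A i) (h : ∀ i ∈ s, |x i - A i| ≤ ρ * A i) :
    |∏ i ∈ s, x i - ∏ i ∈ s, A i| ≤ (2 ^ s.card - 1) * ρ * ∏ i ∈ s, A i := by
  classical
  induction s using Finset.induction_on with
  | empty => simp
  | insert a s has ih =>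
    have ih' := ih (fun i hi => hA i (mem_insert_of_mem hi)) (fun i hi => h i (mem_insert_of_mem hi))
    rw [prod_insert has, prod_insert has, card_insert_of_notMem has]
    have ha := h a (mem_insert_self _ _)
    have hAa := hA a (mem_insert_self _ _)
    have hP : 0 ≤ ∏ i ∈ s, A i := prod_nonneg fun i hi => hA i (mem_insert_of_mem hi)
    set P := ∏ i ∈ s, A i
    set Y := ∏ i ∈ s, x i
    have h1 : x a * Y - A a * P = x a * (Y - P) + (x a - A a) * P := by ring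
    have h2 : |x a| ≤ (1 + ρ) * A a := by
      have := abs_sub_abs_le_abs_sub (x a) (A a)
      rw [abs_of_nonneg hAa] at this
      linarith
    have h2' : |x a| ≤ 2 * A a := h2.trans (by nlinarith)
    have hpow : (1 : ℝ) ≤ 2 ^ s.card := one_le_pow₀ (by norm_num)
    calc |x a * Y - A a * P| ≤ |x a * (Y - P)| + |(x a - A a) * P| := by
          rw [h1]; exact abs_add_le _ _
      _ = |x a| * |Y - P| + |x a - A a| * P := by
          rw [abs_mul, abs_mul, abs_of_nonneg hP]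
      _ ≤ (2 * A a) * ((2 ^ s.card - 1) * ρ * P) + (ρ * A a) * P := by
          gcongr
      _ = (2 ^ (s.card + 1) - 1) * ρ * (A a * P) := by ring

variable {g : ℕ}

/-- The box with radii `M`. -/
noncomputable def box (M : Fin g → ℕ) : Finset (Fin g → ℤ) :=
  Fintype.piFinset fun i => Icc (-(M i : ℤ)) (M i)

theorem card_box (M : Fin g → ℕ) : (box M).card = ∏ i, (2 * M i + 1) := by
  rw [box, Fintype.card_piFinset]
  refine prod_congr rfl fun i _ => ?_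
  rw [Int.card_Icc]
  omega

/-- Reduction of a vector. -/
def red (m : ℕ) (b : Fin g → ℤ) : Fin g → ZMod m := fun i => (b i : ZMod m)

theorem box_count {m : ℕ} (hm : 0 < m) (M : Fin g → ℕ) (C : Finset (Fin g → ZMod m)) {ρ : ℝ}
    (hρ1 : ρ ≤ 1) (hρ : ∀ i, (m : ℝ) ≤ ρ * (2 * M i + 1)) (hρ0 : 0 ≤ ρ) :
    |(((box M).filter fun b => red m b ∈ C).card : ℝ) - C.card / (m : ℝ) ^ g * (box M).card| ≤
      2 ^ g * ρ * (C.card / (m : ℝ) ^ g * (box M).card) := by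
  have hm' : (0 : ℝ) < m := by exact_mod_cast hm
  have h1 : ((box M).filter fun b => red m b ∈ C).card =
      ∑ c ∈ C, ∏ i, ((Icc (-(M i : ℤ)) (M i)).filter fun b : ℤ => (b : ZMod m) = c i).card := by
    rw [card_eq_sum_card_fiberwise (f := red m) (t := C)]
    · refine sum_congr rfl fun c hc => ?_
      rw [← Fintype.card_piFinset]
      congr 1
      ext b
      simp only [mem_filter, box, Fintype.mem_piFinset]
      constructor
      · rintro ⟨⟨h1, _⟩, h2⟩ i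
        exact ⟨h1 i, congrFun h2 i⟩
      · intro h1
        have h2 : red m b = c := funext fun i => (h1 i).2
        exact ⟨⟨fun i => (h1 i).1, by rw [h2]; exact hc⟩, h2⟩
    · intro b hb
      have := (mem_filter.1 (mem_coe.1 hb)).2
      exact this
  set A : Fin g → ℝ := fun i => (2 * M i + 1) / m with hA
  have hA0 : ∀ i, 0 ≤ A i := fun i => by positivity
  have h2 : ∀ c : Fin g → ZMod m,
      |(∏ i, (((Icc (-(M i : ℤ)) (M i)).filter fun b : ℤ => (b : ZMod m) = c i).card : ℝ)) -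
        ∏ i, A i| ≤ 2 ^ g * ρ * ∏ i, A i := by
    intro c
    have h3 := prod_close univ
      (fun i => (((Icc (-(M i : ℤ)) (M i)).filter fun b : ℤ => (b : ZMod m) = c i).card : ℝ)) A hρ1
      (fun i _ => hA0 i) (fun i _ => (count_res (M i) m hm (c i)).trans ?_)
    · refine h3.trans ?_
      rw [card_univ, Fintype.card_fin]
      have : 0 ≤ ∏ i, A i := prod_nonneg fun i _ => hA0 i
      nlinarith [mul_nonneg hρ0 this]
    · rw [hA]
      show 1 ≤ ρ * ((2 * M i + 1) / m)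
      rw [← mul_div_assoc, le_div_iff₀ hm', one_mul]
      exact hρ i
  have h3 : (C.card : ℝ) / (m : ℝ) ^ g * (box M).card = ∑ c ∈ C, ∏ i, A i := by
    rw [sum_const, nsmul_eq_mul, card_box, hA]
    push_cast
    rw [prod_div_distrib, prod_const, card_univ, Fintype.card_fin]
    ring
  rw [h3, h1]
  push_cast
  rw [← sum_sub_distrib, mul_sum]
  exact (abs_sum_le_sum_abs _ _).trans (sum_le_sum fun c _ => h2 c)

/-- Turán's sieve, abstract form. -/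
theorem turan {α ι : Type*} [DecidableEq α] [DecidableEq ι] (B : Finset α) (P : Finset ι)
    (T : ι → Finset α) (δ : ι → ℝ) {δ₀ ε : ℝ} (hδ₀ : 0 < δ₀) (hε : 0 ≤ ε)
    (hδ : ∀ i ∈ P, δ₀ ≤ δ i ∧ δ i ≤ 1)
    (h1 : ∀ i ∈ P, |((B ∩ T i).card : ℝ) - δ i * B.card| ≤ ε * (δ i * B.card))
    (h2 : ∀ i ∈ P, ∀ j ∈ P, i ≠ j →
      |((B ∩ (T i ∩ T j)).card : ℝ) - δ i * δ j * B.card| ≤ ε * (δ i * δ j * B.card)) :
    (P.card : ℝ) * ((B.filter fun b => ∀ i ∈ P, b ∉ T i).card : ℝ) ≤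
      B.card * (1 / δ₀ ^ 2 + 3 * ε * P.card) := by
  rcases P.eq_empty_or_nonempty with rfl | hP
  · simp
    positivity
  have hPpos : (0 : ℝ) < P.card := by exact_mod_cast hP.card_pos
  let X : ι → α → ℝ := fun i b => (if b ∈ T i then 1 else 0) / δ i - 1
  have hbad : (P.card : ℝ) ^ 2 * ((B.filter fun b => ∀ i ∈ P, b ∉ T i).card : ℝ) ≤
      ∑ b ∈ B, (∑ i ∈ P, X i b) ^ 2 := by
    calc (P.card : ℝ) ^ 2 * ((B.filter fun b => ∀ i ∈ P, b ∉ T i).card : ℝ)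
        = ∑ b ∈ B.filter (fun b => ∀ i ∈ P, b ∉ T i), (P.card : ℝ) ^ 2 := by
          rw [sum_const, nsmul_eq_mul, mul_comm]
      _ = ∑ b ∈ B.filter (fun b => ∀ i ∈ P, b ∉ T i), (∑ i ∈ P, X i b) ^ 2 := by
          refine sum_congr rfl fun b hb => ?_
          have h3 : ∀ i ∈ P, X i b = -1 := by
            intro i hi
            have := (mem_filter.1 hb).2 i hi
            simp [X, this]
          rw [sum_congr rfl h3, sum_const, nsmul_eq_mul]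
          ring
      _ ≤ ∑ b ∈ B, (∑ i ∈ P, X i b) ^ 2 :=
          sum_le_sum_of_subset_of_nonneg (filter_subset _ _) fun _ _ _ => sq_nonneg _
  have hexp : ∑ b ∈ B, (∑ i ∈ P, X i b) ^ 2 = ∑ i ∈ P, ∑ j ∈ P, ∑ b ∈ B, X i b * X j b := by
    simp_rw [sq, sum_mul_sum]
    rw [sum_comm]
    refine sum_congr rfl fun i _ => ?_
    rw [sum_comm]
  have hind : ∀ (S : Finset α), ∑ b ∈ B, (if b ∈ S then (1 : ℝ) else 0) = (B ∩ S).card := by
    intro S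
    rw [← sum_filter, sum_const, nsmul_eq_mul, mul_one, filter_mem_eq_inter]
  have hN : (0 : ℝ) ≤ B.card := by positivity
  have hdiag : ∀ i ∈ P, ∑ b ∈ B, X i b * X i b ≤ B.card / δ₀ ^ 2 := by
    intro i hi
    obtain ⟨d1, d2⟩ := hδ i hi
    have hd0 : 0 < δ i := hδ₀.trans_le d1
    have h3 : ∀ b ∈ B, X i b * X i b ≤ 1 / δ₀ ^ 2 := by
      intro b _
      have h4 : |X i b| ≤ 1 / δ₀ := by
        have h5 : 1 / δ i ≤ 1 / δ₀ := one_div_le_one_div_of_le hδ₀ d1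
        have h6 : 1 ≤ 1 / δ i := by rw [le_div_iff₀ hd0]; linarith
        simp only [X]
        split_ifs with hb
        · rw [abs_of_nonneg (by linarith)]; linarith
        · rw [zero_div, zero_sub, abs_neg, abs_one]; linarith
      calc X i b * X i b = |X i b| ^ 2 := by rw [sq_abs, sq]
        _ ≤ (1 / δ₀) ^ 2 := by gcongr
        _ = 1 / δ₀ ^ 2 := by rw [one_div_pow]
    calc ∑ b ∈ B, X i b * X i b ≤ ∑ b ∈ B, 1 / δ₀ ^ 2 := sum_le_sum h3
      _ = B.card / δ₀ ^ 2 := by rw [sum_const, nsmul_eq_mul]; ring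
  have hoff : ∀ i ∈ P, ∀ j ∈ P, i ≠ j → ∑ b ∈ B, X i b * X j b ≤ 3 * ε * B.card := by
    intro i hi j hj hij
    have hdi : 0 < δ i := hδ₀.trans_le (hδ i hi).1
    have hdj : 0 < δ j := hδ₀.trans_le (hδ j hj).1
    have h3 : ∑ b ∈ B, X i b * X j b = ((B ∩ (T i ∩ T j)).card : ℝ) / (δ i * δ j) -
        (B ∩ T i).card / δ i - (B ∩ T j).card / δ j + B.card := by
      rw [← hind, ← hind, ← hind, sum_div, sum_div, sum_div, ← sum_sub_distrib,
        ← sum_sub_distrib]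
      have : (B.card : ℝ) = ∑ b ∈ B, 1 := by simp
      rw [this, ← sum_add_distrib]
      refine sum_congr rfl fun b _ => ?_
      simp only [X, mem_inter]
      by_cases hbi : b ∈ T i <;> by_cases hbj : b ∈ T j <;> simp [hbi, hbj] <;> field_simp <;> ring
    have e1 := abs_le.1 (h1 i hi)
    have e2 := abs_le.1 (h1 j hj)
    have e3 := abs_le.1 (h2 i hi j hj hij)
    have f1 : (1 - ε) * B.card ≤ (B ∩ T i).card / δ i := by
      rw [le_div_iff₀ hdi]; linarith [e1.1]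
    have f2 : (1 - ε) * B.card ≤ (B ∩ T j).card / δ j := by
      rw [le_div_iff₀ hdj]; linarith [e2.1]
    have f3 : ((B ∩ (T i ∩ T j)).card : ℝ) / (δ i * δ j) ≤ (1 + ε) * B.card := by
      rw [div_le_iff₀ (mul_pos hdi hdj)]; linarith [e3.2]
    rw [h3]
    linarith
  have htot : ∑ i ∈ P, ∑ j ∈ P, ∑ b ∈ B, X i b * X j b ≤
      ∑ i ∈ P, (B.card / δ₀ ^ 2 + P.card * (3 * ε * B.card)) := by
    refine sum_le_sum fun i hi => ?_
    rw [← add_sum_erase P _ hi]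
    refine add_le_add (hdiag i hi) ?_
    calc ∑ j ∈ P.erase i, ∑ b ∈ B, X i b * X j b ≤ ∑ j ∈ P.erase i, 3 * ε * B.card :=
          sum_le_sum fun j hj => hoff i hi j (mem_of_mem_erase hj) (ne_of_mem_erase hj).symm
      _ ≤ ∑ j ∈ P, 3 * ε * B.card :=
          sum_le_sum_of_subset_of_nonneg (erase_subset _ _) fun _ _ _ => by positivity
      _ = P.card * (3 * ε * B.card) := by rw [sum_const, nsmul_eq_mul]
  rw [sum_const, nsmul_eq_mul] at htot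
  have h5 : (P.card : ℝ) * ((P.card : ℝ) * ((B.filter fun b => ∀ i ∈ P, b ∉ T i).card : ℝ)) ≤
      P.card * (B.card * (1 / δ₀ ^ 2 + 3 * ε * P.card)) := by
    calc (P.card : ℝ) * ((P.card : ℝ) * ((B.filter fun b => ∀ i ∈ P, b ∉ T i).card : ℝ))
        = (P.card : ℝ) ^ 2 * ((B.filter fun b => ∀ i ∈ P, b ∉ T i).card : ℝ) := by ring
      _ ≤ _ := hbad
      _ = _ := hexp
      _ ≤ _ := htot
      _ = _ := by ring
  exact le_of_mul_le_mul_left h5 hPpos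

/-- The Chinese remainder theorem for sets of vectors. -/
theorem exists_crt {ℓ ℓ' : ℕ} (hcop : ℓ.Coprime ℓ') (hℓ : 0 < ℓ) (hℓ' : 0 < ℓ')
    (C : Finset (Fin g → ZMod ℓ)) (C' : Finset (Fin g → ZMod ℓ')) :
    ∃ D : Finset (Fin g → ZMod (ℓ * ℓ')), D.card = C.card * C'.card ∧
      ∀ b : Fin g → ℤ, red (ℓ * ℓ') b ∈ D ↔ red ℓ b ∈ C ∧ red ℓ' b ∈ C' := by
  classical
  have : NeZero ℓ := ⟨hℓ.ne'⟩
  have : NeZero ℓ' := ⟨hℓ'.ne'⟩
  let e : ZMod (ℓ * ℓ') ≃+* ZMod ℓ × ZMod ℓ' := ZMod.chineseRemainder hcop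
  let E : (Fin g → ZMod (ℓ * ℓ')) ≃ (Fin g → ZMod ℓ) × (Fin g → ZMod ℓ') :=
    (Equiv.arrowCongr (Equiv.refl _) e.toEquiv).trans (Equiv.arrowProdEquivProdArrow _ _ _)
  refine ⟨(C ×ˢ C').map E.symm.toEmbedding, by rw [card_map, card_product], fun b => ?_⟩
  rw [mem_map_equiv, Equiv.symm_symm, mem_product]
  have h1 : (E (red (ℓ * ℓ') b)).1 = red ℓ b := by
    funext i
    show (e ((b i : ℤ) : ZMod (ℓ * ℓ'))).1 = _
    rw [map_intCast]
    rfl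
  have h2 : (E (red (ℓ * ℓ') b)).2 = red ℓ' b := by
    funext i
    show (e ((b i : ℤ) : ZMod (ℓ * ℓ'))).2 = _
    rw [map_intCast]
    rfl
  rw [h1, h2]

/-- Turán's sieve in a box. -/
theorem sieve (M : Fin g → ℕ) (P : Finset ℕ) (hP : ∀ ℓ ∈ P, ℓ.Prime)
    (C : ∀ ℓ : ℕ, Finset (Fin g → ZMod ℓ)) {δ₀ ρ Z : ℝ} (hδ₀ : 0 < δ₀)
    (hC : ∀ ℓ ∈ P, δ₀ * (ℓ : ℝ) ^ g ≤ (C ℓ).card) (hρ0 : 0 ≤ ρ) (hρ1 : ρ ≤ 1)
    (hZ : ∀ ℓ ∈ P, (ℓ : ℝ) ≤ Z) (hM : ∀ i, Z ^ 2 ≤ ρ * (2 * M i + 1)) :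
    (P.card : ℝ) * (((box M).filter fun b => ∀ ℓ ∈ P, red ℓ b ∉ C ℓ).card : ℝ) ≤
      (box M).card * (1 / δ₀ ^ 2 + 3 * (2 ^ g * ρ) * P.card) := by
  classical
  let T : ℕ → Finset (Fin g → ℤ) := fun ℓ => (box M).filter fun b => red ℓ b ∈ C ℓ
  have hpos : ∀ ℓ ∈ P, (0 : ℝ) < (ℓ : ℝ) ^ g := fun ℓ hℓ =>
    pow_pos (by exact_mod_cast (hP ℓ hℓ).pos) _
  have hfilter : ((box M).filter fun b => ∀ ℓ ∈ P, red ℓ b ∉ C ℓ) =
      (box M).filter fun b => ∀ ℓ ∈ P, b ∉ T ℓ := by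
    refine filter_congr fun b hb => ?_
    refine forall₂_congr fun ℓ _ => ?_
    simp only [T, mem_filter, not_and]
    exact ⟨fun h _ => h, fun h => h hb⟩
  rw [hfilter]
  have hle : ∀ ℓ ∈ P, (ℓ : ℝ) ≤ Z ^ 2 := by
    intro ℓ hℓ
    have h1 : (1 : ℝ) ≤ ℓ := by exact_mod_cast (hP ℓ hℓ).one_le
    have h2 := hZ ℓ hℓ
    nlinarith
  refine turan (box M) P T (fun ℓ => (C ℓ).card / (ℓ : ℝ) ^ g) hδ₀ (by positivity) ?_ ?_ ?_
  · intro ℓ hℓ
    refine ⟨?_, ?_⟩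
    · rw [le_div_iff₀ (hpos ℓ hℓ)]
      exact hC ℓ hℓ
    · rw [div_le_one (hpos ℓ hℓ)]
      have : NeZero ℓ := ⟨(hP ℓ hℓ).ne_zero⟩
      have h1 : (C ℓ).card ≤ Fintype.card (Fin g → ZMod ℓ) := card_le_univ _
      rw [Fintype.card_fun, ZMod.card, Fintype.card_fin] at h1
      exact_mod_cast h1
  · intro ℓ hℓ
    have h1 := box_count (hP ℓ hℓ).pos M (C ℓ) hρ1 (fun i => (hle ℓ hℓ).trans (hM i)) hρ0
    have h2 : box M ∩ T ℓ = (box M).filter fun b => red ℓ b ∈ C ℓ :=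
      inter_eq_right.2 (filter_subset _ _)
    rw [h2]
    exact h1
  · intro ℓ hℓ ℓ' hℓ' hne
    have hcop : ℓ.Coprime ℓ' := (Nat.coprime_primes (hP ℓ hℓ) (hP ℓ' hℓ')).2 hne
    obtain ⟨D, hD, hD'⟩ := exists_crt hcop (hP ℓ hℓ).pos (hP ℓ' hℓ').pos (C ℓ) (C ℓ')
    have hm : ((ℓ * ℓ' : ℕ) : ℝ) ≤ Z ^ 2 := by
      push_cast
      rw [sq]
      exact mul_le_mul (hZ ℓ hℓ) (hZ ℓ' hℓ') (by positivity)
        ((Nat.cast_nonneg ℓ).trans (hZ ℓ hℓ))
    have h1 := box_count (Nat.mul_pos (hP ℓ hℓ).pos (hP ℓ' hℓ').pos) M D hρ1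
      (fun i => hm.trans (hM i)) hρ0
    have h2 : box M ∩ (T ℓ ∩ T ℓ') = (box M).filter fun b => red (ℓ * ℓ') b ∈ D := by
      ext b
      simp only [T, mem_inter, mem_filter, hD']
      tauto
    have h3 : (C ℓ).card / (ℓ : ℝ) ^ g * ((C ℓ').card / (ℓ' : ℝ) ^ g) =
        D.card / ((ℓ * ℓ' : ℕ) : ℝ) ^ g := by
      rw [hD]
      push_cast
      rw [mul_pow, div_mul_div_comm]
    rw [h2, h3]
    exact h1

end Pool.Agent.Work.MP_223b32_ag_56
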