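import Pool.Agent.Work.MP_223b32_ag.Defs

/-!
Definitions for the theorem on isogeny classes of abelian varieties over finite fields.

For an abelian variety `A` of dimension `g` over `F_q`, the characteristic polynomial of Frobenius
is `f(x) = x ^ g h(x + q / x)` for a unique monic integral polynomial `h` of degree `g`, all of
whose complex roots are real of absolute value at most `2 √q` (the real Weil polynomial), and `h`
determines the isogeny class of `A`.  By the theorem of Honda and Tate, each such `h` with `h(0)`
prime to `q` comes from an (ordinary) abelian variety of dimension `g`.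
-/

namespace Pool.Agent.Work.MP_223b32_ag_56

open Polynomial Pool.Agent.Work.MP_223b32_ag

/-- The real Weil polynomials of degree `g` for `q`: monic integral polynomials `h` of degree `g`
with all their complex roots real and of absolute value at most `2 √q`. -/
def realWeil (q g : ℕ) : Set ℤ[X] :=
  {h | h.Monic ∧ h.natDegree = g ∧ ∀ z : ℂ, aeval z h = 0 → z.im = 0 ∧ z.re ^ 2 ≤ 4 * q}

/-- The real Weil polynomials of ordinary abelian varieties of dimension `g` over `F_q`, `q` a
power of the prime `p`: those `h` with `p ∤ h(0)`. -/
def ordinary (p q g : ℕ) : Set ℤ[X] := {h ∈ realWeil q g | ¬ (p : ℤ) ∣ h.coeff 0}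

/-- For `H¹ = V` with Frobenius `G` over a field with `Q` elements and for the codimension `j`: the
classes in `H^(2j) = ⋀^(2j) V` on which `G` is `Q ^ j` are the sums of `j`-fold products of such
classes for `j = 1` (which come from divisors, by Tate's theorem), and the order of the pole of
`det(1 - Q^(-s) G | ⋀^(2j) V)⁻¹` at `s = j` is the dimension of the space of these sums. -/
def Holds {V : Type} [AddCommGroup V] [Module ℂ V] [Module.Finite ℂ V] (G : Module.End ℂ V)
    (Q : ℝ) (j : ℕ) : Prop :=
  tateClasses G Q j = tateClasses G Q 1 ^ j ∧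
    HasPoleOrder (Lfun G Q j) j (Module.finrank ℂ ↥(tateClasses G Q 1 ^ j))

/-- `μ` is a root of `x ^ g h(x + q / x)`. -/
def IsWeilRoot (q : ℕ) (h : ℤ[X]) (μ : ℂ) : Prop := μ ≠ 0 ∧ aeval (μ + q / μ) h = 0

/-- The analytic Tate property of the isogeny class with real Weil polynomial `h`, for all powers,
all finite extensions of `F_q` and all codimensions (also after adding a supersingular factor).
`V` is the `H¹`, `F` its Frobenius endomorphism (a semisimple one, with eigenvalues the roots of
`f(x) = x ^ g h(x + q / x)`, and those of a supersingular factor), `n` the degree of the extension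
of `F_q`, `j` the codimension. -/
def TateProperty (q : ℕ) (h : ℤ[X]) : Prop :=
  ∀ (V : Type) [AddCommGroup V] [Module ℂ V] [Module.Finite ℂ V] (F : Module.End ℂ V),
    F.IsSemisimple → ∀ n : ℕ, 0 < n →
    (∀ μ, F.HasEigenvalue μ → IsWeilRoot q h μ ∨ μ ^ (2 * n) = (q : ℂ) ^ n) →
    ∀ j : ℕ, Holds (F ^ n) ((q : ℝ) ^ n) j

/-- The exceptions. -/
def exceptional (q g : ℕ) : Set ℤ[X] := {h ∈ realWeil q g | ¬ TateProperty q h}

end Pool.Agent.Work.MP_223b32_ag_56
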