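import Pool.Agent.Work.MP_223b32_ag_56.Indep

/-!
The density of good residue classes modulo a prime.
-/

namespace Pool.Agent.Work.MP_223b32_ag_56

open Polynomial Finset

section mk

variable {R : Type*} [CommRing R] {g : ℕ}

/-- The monic polynomial of degree `g` with given lower coefficients. -/
noncomputable def mk (c : Fin g → R) : R[X] := X ^ g + ∑ i : Fin g, C (c i) * X ^ (i : ℕ)

theorem mk_degree_lt [Nontrivial R] (c : Fin g → R) :
    (∑ i : Fin g, C (c i) * X ^ (i : ℕ)).degree < (g : WithBot ℕ) :=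
  degree_sum_fin_lt c

theorem mk_monic [Nontrivial R] (c : Fin g → R) : (mk c).Monic :=
  monic_X_pow_add (mk_degree_lt c)

theorem mk_natDegree [Nontrivial R] (c : Fin g → R) : (mk c).natDegree = g := by
  rw [mk, natDegree_eq_of_degree_eq_some]
  rw [degree_add_eq_left_of_degree_lt (by rw [degree_X_pow]; exact mk_degree_lt c), degree_X_pow]

theorem mk_coeff [Nontrivial R] (c : Fin g → R) (i : Fin g) : (mk c).coeff i = c i := by
  rw [mk, coeff_add, coeff_X_pow, if_neg i.2.ne, zero_add, finsetSum_coeff]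
  simp only [coeff_C_mul, coeff_X_pow]
  rw [Finset.sum_eq_single i]
  · simp
  · intro j _ hji
    rw [if_neg (fun h => hji (Fin.ext h.symm)), mul_zero]
  · simp

theorem mk_surj [Nontrivial R] {p : R[X]} (hp : p.Monic) (hd : p.natDegree = g) :
    mk (fun i : Fin g => p.coeff i) = p := by
  have h1 := hp.as_sum
  rw [hd] at h1
  rw [mk]
  conv_rhs => rw [h1]
  congr 1
  exact Fin.sum_univ_eq_sum_range (fun i => C (p.coeff i) * X ^ i) g

theorem mk_map {S : Type*} [CommRing S] (φ : R →+* S) (c : Fin g → R) :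
    (mk c).map φ = mk (fun i => φ (c i)) := by
  simp [mk, Polynomial.map_add, Polynomial.map_sum]

end mk

section count

variable {ℓ : ℕ} [hℓ : Fact ℓ.Prime]

/-- The solutions of `t ^ 2 - u ^ 2 = a`. -/
def pairs (a : ZMod ℓ) : Finset (ZMod ℓ × ZMod ℓ) := univ.filter fun p => p.1 ^ 2 - p.2 ^ 2 = a

theorem card_pairs (h2 : (2 : ZMod ℓ) ≠ 0) {a : ZMod ℓ} (ha : a ≠ 0) :
    (pairs a).card = ℓ - 1 := by
  have h1 : (pairs a).card = (univ.filter fun v : ZMod ℓ => v ≠ 0).card := by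
    refine card_bij' (fun p _ => p.1 + p.2) (fun v _ => ((v + a / v) / 2, (v - a / v) / 2))
      ?_ ?_ ?_ ?_
    · intro p hp
      have hp' := (mem_filter.1 hp).2
      refine mem_filter.2 ⟨mem_univ _, fun h0 => ha ?_⟩
      rw [← hp']
      have h0' : p.1 + p.2 = 0 := h0
      linear_combination (p.1 - p.2) * h0'
    · intro v hv
      have hv' := (mem_filter.1 hv).2
      refine mem_filter.2 ⟨mem_univ _, ?_⟩
      show ((v + a / v) / 2) ^ 2 - ((v - a / v) / 2) ^ 2 = a
      field_simp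
      ring
    · intro p hp
      have hp' := (mem_filter.1 hp).2
      have h0 : p.1 + p.2 ≠ 0 := by
        intro h0
        apply ha
        rw [← hp']
        linear_combination (p.1 - p.2) * h0
      have h3 : a / (p.1 + p.2) = p.1 - p.2 := by
        rw [div_eq_iff h0, ← hp']; ring
      ext
      · show (p.1 + p.2 + a / (p.1 + p.2)) / 2 = p.1
        rw [h3, div_eq_iff h2]; ring
      · show (p.1 + p.2 - a / (p.1 + p.2)) / 2 = p.2
        rw [h3, div_eq_iff h2]; ring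
    · intro v hv
      show (v + a / v) / 2 + (v - a / v) / 2 = v
      rw [← add_div, div_eq_iff h2]; ring
  rw [h1, filter_ne' univ (0 : ZMod ℓ), card_erase_of_mem (mem_univ _), card_univ, ZMod.card]

open Classical in
/-- Squares `t ^ 2 - a`. -/
noncomputable def S0 (a : ZMod ℓ) : Finset (ZMod ℓ) := univ.filter fun t => IsSquare (t ^ 2 - a)

theorem card_zero_le (a : ZMod ℓ) : (univ.filter fun t : ZMod ℓ => t ^ 2 = a).card ≤ 2 := by
  by_cases h : ∃ t : ZMod ℓ, t ^ 2 = a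
  · obtain ⟨t, ht⟩ := h
    calc (univ.filter fun t : ZMod ℓ => t ^ 2 = a).card ≤ ({t, -t} : Finset (ZMod ℓ)).card := by
          refine card_le_card fun u hu => ?_
          have hu' := (mem_filter.1 hu).2
          rw [← ht] at hu'
          rcases sq_eq_sq_iff_eq_or_eq_neg.1 hu' with h | h <;> simp [h]
      _ ≤ 2 := card_le_two
  · push Not at h
    rw [filter_eq_empty_iff.2 (fun t _ => h t)]
    simp

theorem S0_bounds (h2 : (2 : ZMod ℓ) ≠ 0) {a : ZMod ℓ} (ha : a ≠ 0) :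
    ℓ - 1 ≤ 2 * (S0 a).card ∧ 2 * ((S0 a).filter fun t => t ^ 2 - a ≠ 0).card ≤ ℓ - 1 := by
  classical
  have hfib : (pairs a).card = ∑ t ∈ S0 a, ((pairs a).filter fun p => p.1 = t).card := by
    refine card_eq_sum_card_fiberwise fun p hp => ?_
    have hp' := (mem_filter.1 (mem_coe.1 hp)).2
    refine mem_coe.2 (mem_filter.2 ⟨mem_univ _, p.2, ?_⟩)
    rw [← hp']; ring
  rw [card_pairs h2 ha] at hfib
  have hmem : ∀ p : ZMod ℓ × ZMod ℓ, p ∈ pairs a ↔ p.1 ^ 2 - p.2 ^ 2 = a := by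
    intro p
    simp [pairs]
  constructor
  · rw [hfib, mul_comm, ← smul_eq_mul, ← sum_const]
    refine sum_le_sum fun t ht => ?_
    obtain ⟨u, hu⟩ := (mem_filter.1 ht).2
    calc ((pairs a).filter fun p => p.1 = t).card ≤ ({(t, u), (t, -u)} : Finset _).card := by
          refine card_le_card fun p hp => ?_
          obtain ⟨h3, h4⟩ := mem_filter.1 hp
          rw [hmem] at h3
          have h5 : p.2 ^ 2 = u ^ 2 := by
            rw [h4] at h3
            linear_combination (-1 : ZMod ℓ) * h3 + hu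
          rcases sq_eq_sq_iff_eq_or_eq_neg.1 h5 with h | h
          · simp [← h, ← h4]
          · simp [← h, ← h4]
      _ ≤ 2 := card_le_two
  · rw [hfib, mul_comm, ← smul_eq_mul, ← sum_const]
    refine (sum_le_sum (fun t ht => ?_)).trans
      (sum_le_sum_of_subset (f := fun t => ((pairs a).filter fun p => p.1 = t).card)
        (filter_subset _ _))
    obtain ⟨ht1, ht2⟩ := mem_filter.1 ht
    obtain ⟨u, hu⟩ := (mem_filter.1 ht1).2
    have hu0 : u ≠ 0 := by
      rintro rfl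
      exact ht2 (by rw [hu]; ring)
    have hne : (t, u) ≠ (t, -u) := by
      intro h
      have h3 : u = -u := congrArg Prod.snd h
      have h4 : 2 * u = 0 := by linear_combination h3
      exact (mul_ne_zero h2 hu0) h4
    calc 2 = ({(t, u), (t, -u)} : Finset (ZMod ℓ × ZMod ℓ)).card := (card_pair hne).symm
      _ ≤ _ := by
          refine card_le_card fun p hp => ?_
          rw [mem_insert, mem_singleton] at hp
          rcases hp with rfl | rfl
          · exact mem_filter.2 ⟨(hmem _).2 (by linear_combination hu), rfl⟩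
          · exact mem_filter.2 ⟨(hmem _).2 (by linear_combination hu), rfl⟩

open Classical in
/-- Non-squares `t ^ 2 - a`. -/
noncomputable def NS (a : ZMod ℓ) : Finset (ZMod ℓ) := univ.filter fun t => ¬ IsSquare (t ^ 2 - a)

open Classical in
/-- Nonzero squares `t ^ 2 - a`. -/
noncomputable def SQ (a : ZMod ℓ) : Finset (ZMod ℓ) :=
  univ.filter fun t => t ^ 2 - a ≠ 0 ∧ IsSquare (t ^ 2 - a)

theorem NS_SQ_bounds (h2 : (2 : ZMod ℓ) ≠ 0) {a : ZMod ℓ} (ha : a ≠ 0) :
    ℓ ≤ 2 * (NS a).card + 3 ∧ ℓ ≤ 2 * (SQ a).card + 5 := by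
  classical
  obtain ⟨h3, h4⟩ := S0_bounds h2 ha
  have h5 : (S0 a).card + (NS a).card = ℓ := by
    have := card_filter_add_card_filter_not (s := (univ : Finset (ZMod ℓ)))
      (p := fun t => IsSquare (t ^ 2 - a))
    rw [card_univ, ZMod.card] at this
    exact this
  have h6 : SQ a = (S0 a).filter fun t => t ^ 2 - a ≠ 0 := by
    ext t
    simp [SQ, S0, and_comm]
  have h7 : (S0 a).card ≤ (SQ a).card + 2 := by
    have h8 := card_filter_add_card_filter_not (s := S0 a) (p := fun t => t ^ 2 - a ≠ 0)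
    have h9 : ((S0 a).filter fun t => ¬ (t ^ 2 - a ≠ 0)).card ≤ 2 := by
      refine (card_le_card fun t ht => ?_).trans (card_zero_le a)
      have := (mem_filter.1 ht).2
      push Not at this
      exact mem_filter.2 ⟨mem_univ _, sub_eq_zero.1 this⟩
    rw [← h6] at h8
    omega
  have hpos := hℓ.out.pos
  rw [← h6] at h4
  omega

end count

section good

variable {ℓ : ℕ} [hℓ : Fact ℓ.Prime]

open Classical in
/-- The good residue classes. -/
noncomputable def goodSet (q g ℓ : ℕ) [NeZero ℓ] : Finset (Fin g → ZMod ℓ) :=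
  univ.filter fun c => GoodMod q ℓ (mk c)

theorem prod_eq_iff {t t' : ZMod ℓ} {S S' : Finset (ZMod ℓ)} {a : ZMod ℓ} (ht : t ∈ NS a)
    (ht' : t' ∈ NS a) (hS : S ⊆ SQ a) (hS' : S' ⊆ SQ a)
    (h : (X - C t) * ∏ s ∈ S, (X - C s) = (X - C t') * ∏ s ∈ S', (X - C s)) :
    t = t' ∧ S = S' := by
  classical
  have hd : ∀ u ∈ NS a, ∀ T : Finset (ZMod ℓ), T ⊆ SQ a → u ∉ T := by
    intro u hu T hT huT
    have h1 := (mem_filter.1 (hT huT)).2.2
    exact (mem_filter.1 hu).2 h1
  have h1 : ∀ u (T : Finset (ZMod ℓ)), u ∉ T →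
      (X - C u) * ∏ s ∈ T, (X - C s) = ∏ s ∈ insert u T, (X - C s) := by
    intro u T hu
    rw [prod_insert hu]
  rw [h1 t S (hd t ht S hS), h1 t' S' (hd t' ht' S' hS')] at h
  have h2 : insert t S = insert t' S' := by
    have h3 := congrArg roots h
    rw [roots_prod_X_sub_C, roots_prod_X_sub_C] at h3
    exact val_injective h3
  have h4 : t = t' := by
    have h5 : t ∈ insert t' S' := h2 ▸ mem_insert_self t S
    rcases mem_insert.1 h5 with h6 | h6
    · exact h6
    · exact absurd h6 (hd t ht S' hS')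
  subst h4
  refine ⟨rfl, ?_⟩
  rw [← erase_insert (hd t ht S hS), h2, erase_insert (hd t ht S' hS')]

theorem card_goodSet (h2 : ℓ ≠ 2) {q : ℕ} (hq : (q : ZMod ℓ) ≠ 0) {g : ℕ} (hg : 1 ≤ g)
    (hbig : 4 * g + 20 ≤ ℓ) :
    1 / (4 ^ g * (g.factorial : ℝ)) * (ℓ : ℝ) ^ g ≤ (goodSet q g ℓ).card := by
  classical
  have h2' : (2 : ZMod ℓ) ≠ 0 := by
    have : ((2 : ℕ) : ZMod ℓ) ≠ 0 := by
      rw [Ne, ZMod.natCast_eq_zero_iff]
      exact fun h => h2 ((Nat.prime_dvd_prime_iff_eq hℓ.out Nat.prime_two).1 h)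
    exact_mod_cast this
  set a : ZMod ℓ := 4 * q with ha
  have ha0 : a ≠ 0 := by
    rw [ha]
    refine mul_ne_zero ?_ hq
    have : (4 : ZMod ℓ) = 2 * 2 := by norm_num
    rw [this]
    exact mul_ne_zero h2' h2'
  obtain ⟨h3, h4⟩ := NS_SQ_bounds h2' ha0
  obtain ⟨k, rfl⟩ : ∃ k, g = k + 1 := ⟨g - 1, by omega⟩
  -- the injection
  have hpoly : ∀ (t : ZMod ℓ) (S : Finset (ZMod ℓ)), S.card = k →
      ((X - C t) * ∏ s ∈ S, (X - C s)).Monic ∧
      ((X - C t) * ∏ s ∈ S, (X - C s)).natDegree = k + 1 := by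
    intro t S hS
    have m1 : (∏ s ∈ S, (X - C s)).Monic := monic_prod_of_monic _ _ fun s _ => monic_X_sub_C s
    refine ⟨(monic_X_sub_C t).mul m1, ?_⟩
    rw [(monic_X_sub_C t).natDegree_mul m1, natDegree_X_sub_C,
      natDegree_prod_of_monic _ _ fun s _ => monic_X_sub_C s]
    simp [hS, add_comm]
  have hcard : (NS a).card * ((SQ a).card.choose k) ≤ (goodSet q (k + 1) ℓ).card := by
    rw [← card_powersetCard, ← card_product]
    refine card_le_card_of_injOn
      (fun p => fun i : Fin (k + 1) => ((X - C p.1) * ∏ s ∈ p.2, (X - C s)).coeff i) ?_ ?_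
    · rintro ⟨t, S⟩ hp
      obtain ⟨ht, hS⟩ := mem_product.1 (mem_coe.1 hp)
      obtain ⟨hS1, hS2⟩ := mem_powersetCard.1 hS
      refine mem_coe.2 (mem_filter.2 ⟨mem_univ _, ?_⟩)
      rw [mk_surj (hpoly t S hS2).1 (hpoly t S hS2).2]
      refine ⟨t, S, rfl, (mem_filter.1 ht).2, fun s hs => ?_⟩
      exact (mem_filter.1 (hS1 hs)).2
    · rintro ⟨t, S⟩ hp ⟨t', S'⟩ hp' heq
      obtain ⟨ht, hS⟩ := mem_product.1 (mem_coe.1 hp)
      obtain ⟨hS1, hS2⟩ := mem_powersetCard.1 hS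
      obtain ⟨ht', hS'⟩ := mem_product.1 (mem_coe.1 hp')
      obtain ⟨hS1', hS2'⟩ := mem_powersetCard.1 hS'
      have h5 := congrArg mk heq
      simp only at h5
      rw [mk_surj (hpoly t S hS2).1 (hpoly t S hS2).2,
        mk_surj (hpoly t' S' hS2').1 (hpoly t' S' hS2').2] at h5
      obtain ⟨h6, h7⟩ := prod_eq_iff ht ht' hS1 hS1' h5
      exact Prod.ext h6 h7
  -- numerical bounds
  have b1 : (ℓ : ℝ) / 4 ≤ (NS a).card := by
    have : (ℓ : ℝ) ≤ 2 * (NS a).card + 3 := by exact_mod_cast h3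
    have h20 : (20 : ℝ) ≤ ℓ := by exact_mod_cast (by omega : 20 ≤ ℓ)
    linarith
  have b2 : (ℓ : ℝ) / 4 ≤ (((SQ a).card + 1 - k : ℕ) : ℝ) := by
    have e1 : ℓ ≤ 4 * ((SQ a).card + 1 - k) := by omega
    have e2 : (ℓ : ℝ) ≤ 4 * (((SQ a).card + 1 - k : ℕ) : ℝ) := by exact_mod_cast e1
    linarith
  have b3 : ((ℓ : ℝ) / 4) ^ k / (k.factorial : ℝ) ≤ ((SQ a).card.choose k : ℝ) := by
    refine le_trans ?_ (Nat.pow_le_choose k (SQ a).card)
    gcongr
  have hk : (0 : ℝ) < (k.factorial : ℝ) := by exact_mod_cast k.factorial_pos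
  calc 1 / (4 ^ (k + 1) * ((k + 1).factorial : ℝ)) * (ℓ : ℝ) ^ (k + 1)
      ≤ 1 / (4 ^ (k + 1) * (k.factorial : ℝ)) * (ℓ : ℝ) ^ (k + 1) := by
        gcongr
        exact Nat.le_succ k
    _ = (ℓ : ℝ) / 4 * (((ℓ : ℝ) / 4) ^ k / (k.factorial : ℝ)) := by
        rw [div_pow]
        field_simp
        ring
    _ ≤ (NS a).card * ((SQ a).card.choose k : ℝ) := by gcongr
    _ ≤ (goodSet q (k + 1) ℓ).card := by exact_mod_cast hcard

end good

end Pool.Agent.Work.MP_223b32_ag_56
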