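import Pool.Agent.Work.MP_223b32_ag_56.Frob

/-!
A prime `ℓ` modulo which `h` splits suitably gives an automorphism exchanging one pair of roots
`x, q / x` of `f(x) = x ^ g h(x + q / x)` and fixing all the other ones.
-/

namespace Pool.Agent.Work.MP_223b32_ag_56

open Polynomial NumberField

/-- The polynomial `k` over `F_ℓ` is a product of distinct linear factors `X - t`, with
`t ^ 2 - 4 q` a non-square for one `t` and a nonzero square for the others. -/
def GoodMod (q ℓ : ℕ) (k : (ZMod ℓ)[X]) : Prop :=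
  ∃ (t₁ : ZMod ℓ) (S : Finset (ZMod ℓ)), k = (X - C t₁) * ∏ t ∈ S, (X - C t) ∧
    ¬ IsSquare (t₁ ^ 2 - 4 * q) ∧ ∀ t ∈ S, t ^ 2 - 4 * q ≠ 0 ∧ IsSquare (t ^ 2 - 4 * q)

section Frob

variable {L : Type} [Field L] [NumberField L] [IsGalois ℚ L]

theorem flip {q ℓ : ℕ} [Fact ℓ.Prime] (h2 : ℓ ≠ 2) (hqℓ : (q : ZMod ℓ) ≠ 0) {h : ℤ[X]}
    (hm : h.Monic) (hs : (h.map (Int.castRingHom L)).Splits)
    (hgood : GoodMod q ℓ (h.map (Int.castRingHom (ZMod ℓ)))) :
    ∃ (τ₁ : L) (σ : Gal(L/ℚ)), aeval τ₁ h = 0 ∧ τ₁ ^ 2 ≠ 4 * q ∧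
      (∀ x : L, x ≠ 0 → aeval (x + q / x) h = 0 → x + q / x ≠ τ₁ → σ x = x) ∧
      (∀ x : L, x ≠ 0 → aeval (x + q / x) h = 0 → x + q / x = τ₁ → σ x = q / x) := by
  classical
  obtain ⟨t₁, S, hfac, ht₁, hS⟩ := hgood
  obtain ⟨K, _, _, π, σ, hσ⟩ := exists_frob' L ℓ
  have hℓ : ℓ.Prime := Fact.out
  let ι : ZMod ℓ →+* K := ZMod.castHom dvd_rfl K
  have hιinj : Function.Injective ι := RingHom.injective ι
  have hιmap : (h.map (Int.castRingHom (ZMod ℓ))).map ι = h.map (Int.castRingHom K) := by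
    rw [Polynomial.map_map]
    congr 1
    exact Subsingleton.elim _ _
  have hπmap : (h.map (Int.castRingHom (𝓞 L))).map π = h.map (Int.castRingHom K) := by
    rw [Polynomial.map_map]
    congr 1
    exact Subsingleton.elim _ _
  have ht₁S : t₁ ∉ S := fun hmem => ht₁ (hS _ hmem).2
  have hfac' : h.map (Int.castRingHom (ZMod ℓ)) = ∏ t ∈ insert t₁ S, (X - C t) := by
    rw [Finset.prod_insert ht₁S, hfac]
  have hsep : (h.map (Int.castRingHom K)).Separable := by
    rw [← hιmap, hfac']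
    refine Separable.map ?_
    rw [separable_prod_X_sub_C_iff']
    exact Function.injective_id.injOn
  -- claim 1
  have claim1 : ∀ a b : 𝓞 L, aeval a h = 0 → aeval b h = 0 → π a = π b → a = b := by
    intro a b ha hb hab
    by_contra hne
    have ha' : (h.map (Int.castRingHom (𝓞 L))).IsRoot a := by
      rw [IsRoot.def, eval_map, ← algebraMap_int_eq, ← aeval_def]
      exact ha
    obtain ⟨k, hk⟩ := dvd_iff_isRoot.2 ha'
    have hb' : (h.map (Int.castRingHom (𝓞 L))).eval b = 0 := by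
      rw [eval_map, ← algebraMap_int_eq, ← aeval_def]
      exact hb
    rw [hk, eval_mul, eval_sub, eval_X, eval_C] at hb'
    have hkb : k.IsRoot b := (mul_eq_zero.1 hb').resolve_left (sub_ne_zero.2 (Ne.symm hne))
    obtain ⟨m, hm'⟩ := dvd_iff_isRoot.2 hkb
    have h5 : h.map (Int.castRingHom K) = (X - C (π a)) * ((X - C (π a)) * m.map π) := by
      rw [← hπmap, hk, hm']
      simp [Polynomial.map_mul, Polynomial.map_sub, hab]
    have h6 := hsep.squarefree
    rw [h5, ← mul_assoc] at h6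
    have h7 := h6 (X - C (π a)) (Dvd.intro _ rfl)
    exact not_isUnit_X_sub_C _ h7
  -- claim 2
  have claim2 : ∀ a : 𝓞 L, aeval a h = 0 → ∃ t ∈ insert t₁ S, π a = ι t := by
    intro a ha
    have h1 : (h.map (Int.castRingHom K)).eval (π a) = 0 := by
      rw [← hπmap, eval_map, eval₂_at_apply, eval_map, ← algebraMap_int_eq, ← aeval_def, ha,
        map_zero]
    rw [← hιmap, hfac', Polynomial.map_prod, eval_prod, Finset.prod_eq_zero_iff] at h1
    obtain ⟨t, ht, h1⟩ := h1
    refine ⟨t, ht, ?_⟩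
    rw [Polynomial.map_sub, map_X, map_C, eval_sub, eval_X, eval_C] at h1
    exact sub_eq_zero.1 h1
  have hjinj : Function.Injective (algebraMap (𝓞 L) L) := IsFractionRing.injective (𝓞 L) L
  -- lifting roots of `h`
  have lift1 : ∀ τ : L, aeval τ h = 0 → ∃ a : 𝓞 L, algebraMap (𝓞 L) L a = τ ∧ aeval a h = 0 := by
    intro τ hτ
    have hint : IsIntegral ℤ τ := ⟨h, hm, by rwa [← aeval_def]⟩
    obtain ⟨a, ha⟩ := (IsIntegralClosure.isIntegral_iff (A := 𝓞 L)).1 hint
    refine ⟨a, ha, hjinj ?_⟩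
    rw [map_zero, ← aeval_algebraMap_apply, ha, hτ]
  -- lifting elements of `R`
  have lift2 : ∀ x : L, x ≠ 0 → aeval (x + q / x) h = 0 → ∃ x' t' : 𝓞 L,
      algebraMap (𝓞 L) L x' = x ∧
      algebraMap (𝓞 L) L t' = x + q / x ∧ aeval t' h = 0 ∧ x' * (t' - x') = q := by
    intro x hx0 hx
    obtain ⟨t', ht', ht'h⟩ := lift1 _ hx
    have hint : IsIntegral (𝓞 L) x := by
      refine ⟨X ^ 2 - C t' * X + C (q : 𝓞 L), by monicity!, ?_⟩
      simp only [eval₂_add, eval₂_sub, eval₂_mul, eval₂_pow, eval₂_X, eval₂_C]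
      rw [ht', map_natCast]
      field_simp
      ring
    obtain ⟨x', hx'⟩ := IsIntegrallyClosed.isIntegral_iff.1 hint
    refine ⟨x', t', hx', ht', ht'h, hjinj ?_⟩
    rw [map_mul, map_sub, ht', hx', map_natCast]
    field_simp
    ring
  have hq0 : (q : K) ≠ 0 := by
    have : ι (q : ZMod ℓ) ≠ 0 := (map_ne_zero ι).2 hqℓ
    simpa using this
  have h2K : (2 : K) ≠ 0 := by
    have h2' : (2 : ZMod ℓ) ≠ 0 := by
      have : ((2 : ℕ) : ZMod ℓ) ≠ 0 := by
        rw [Ne, ZMod.natCast_eq_zero_iff]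
        exact fun h => h2 ((Nat.prime_dvd_prime_iff_eq hℓ Nat.prime_two).1 h)
      exact_mod_cast this
    have : ι (2 : ZMod ℓ) ≠ 0 := (map_ne_zero ι).2 h2'
    rwa [map_ofNat] at this
  -- nonvanishing of the discriminant
  have hdisc : ∀ t' : 𝓞 L, aeval t' h = 0 → π t' ^ 2 - 4 * (q : K) ≠ 0 := by
    intro t' ht' h0
    obtain ⟨t, ht, htt⟩ := claim2 t' ht'
    have h3 : ι (t ^ 2 - 4 * (q : ZMod ℓ)) = 0 := by
      rw [← h0, htt, map_sub, map_pow, map_mul, map_natCast, map_ofNat]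
    have h4 : t ^ 2 - 4 * (q : ZMod ℓ) = 0 := (map_eq_zero ι).1 h3
    rcases Finset.mem_insert.1 ht with rfl | ht
    · exact ht₁ (h4 ▸ IsSquare.zero)
    · exact (hS t ht).1 h4
  -- injectivity of the reduction on `R`
  have inj : ∀ x y : L, x ≠ 0 → aeval (x + q / x) h = 0 → y ≠ 0 → aeval (y + q / y) h = 0 →
      ∀ x' y' : 𝓞 L, algebraMap (𝓞 L) L x' = x → algebraMap (𝓞 L) L y' = y →
      π x' = π y' → x = y := by
    intro x y hx0 hx hy0 hy x' y' hx' hy' hxy
    obtain ⟨x'', t', hx'', ht', htx, hqx⟩ := lift2 x hx0 hx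
    obtain ⟨y'', u', hy'', hu', htu, hqy⟩ := lift2 y hy0 hy
    have e1 : x'' = x' := hjinj (hx''.trans hx'.symm)
    have e2 : y'' = y' := hjinj (hy''.trans hy'.symm)
    subst e1 e2
    have hqx' := congrArg π hqx
    have hqy' := congrArg π hqy
    simp only [map_mul, map_sub, map_natCast] at hqx' hqy'
    have hπ0 : π x'' ≠ 0 := by
      intro h0
      rw [h0, zero_mul] at hqx'
      exact hq0 hqx'.symm
    have htu' : π t' = π u' := by
      rw [← hxy] at hqy'
      have := mul_left_cancel₀ hπ0 (hqx'.trans hqy'.symm)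
      exact sub_left_inj.1 this
    have htu2 : t' = u' := claim1 _ _ htx htu htu'
    have hsum : x + q / x = y + q / y := by rw [← ht', ← hu', htu2]
    have hprod : (x - y) * (x - q / y) = 0 := by
      have : q / x = y + q / y - x := by rw [← hsum]; ring
      have h8 : (q : L) = x * (y + q / y - x) := by
        rw [← this]; field_simp
      have h9 : y * (q / y) = q := by field_simp
      linear_combination h8 + h9
    rcases mul_eq_zero.1 hprod with h8 | h8
    · exact sub_eq_zero.1 h8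
    · exfalso
      have h9 : x = algebraMap (𝓞 L) L u' - algebraMap (𝓞 L) L y'' := by
        rw [hu', hy'', sub_eq_zero.1 h8]; ring
      have h10 : x'' = u' - y'' := hjinj (by rw [hx'', map_sub]; exact h9)
      have h11 : π y'' = π u' - π y'' := by rw [← map_sub, ← h10, hxy]
      apply hdisc u' htu
      have h12 := hqy'
      rw [← hxy] at h11 h12
      linear_combination (-(π u' - 2 * π x'')) * h11 + 4 * h12
  -- the action of the Frobenius
  have sq_root : ∀ x' t' : 𝓞 L, x' * (t' - x') = q → aeval t' h = 0 → π t' ≠ ι t₁ →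
      π x' ^ ℓ = π x' := by
    intro x' t' hq' ht' hne
    obtain ⟨t, ht, htt⟩ := claim2 t' ht'
    have htS : t ∈ S := by
      rcases Finset.mem_insert.1 ht with rfl | ht
      · exact absurd htt hne
      · exact ht
    obtain ⟨u, hu⟩ := (hS t htS).2
    have hq'' := congrArg π hq'
    simp only [map_mul, map_sub, map_natCast] at hq''
    have h3 : (2 * π x' - ι t) ^ 2 = ι u ^ 2 := by
      have h4 : ι (t ^ 2 - 4 * q) = ι (u * u) := by rw [hu]
      rw [map_sub, map_pow, map_mul, map_natCast, map_ofNat, map_mul] at h4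
      rw [htt] at hq''
      linear_combination (-4) * hq'' + h4
    have h5 : ∃ v : ZMod ℓ, π x' = ι v := by
      have h2' : (2 : ZMod ℓ) ≠ 0 := by
        intro h0
        apply h2K
        rw [← map_ofNat ι 2, h0, map_zero]
      rcases sq_eq_sq_iff_eq_or_eq_neg.1 h3 with h6 | h6
      · refine ⟨(t + u) / 2, ?_⟩
        rw [map_div₀, map_add, map_ofNat, eq_div_iff h2K]
        linear_combination h6
      · refine ⟨(t - u) / 2, ?_⟩
        rw [map_div₀, map_sub, map_ofNat, eq_div_iff h2K]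
        linear_combination h6
    obtain ⟨v, hv⟩ := h5
    rw [hv, ← map_pow, ZMod.pow_card]
  have nsq_root : ∀ x' t' : 𝓞 L, x' * (t' - x') = q → aeval t' h = 0 → π t' = ι t₁ →
      π x' ^ ℓ = π (t' - x') := by
    intro x' t' hq' ht' htt
    have hq'' := congrArg π hq'
    simp only [map_mul, map_sub, map_natCast] at hq''
    have h3 := congrArg (frobenius K ℓ) hq''
    rw [map_mul, map_sub, frobenius_def, frobenius_def, map_natCast] at h3
    have h4 : π t' ^ ℓ = π t' := by rw [htt, ← map_pow, ZMod.pow_card]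
    rw [h4] at h3
    have h5 : (π x' ^ ℓ - π x') * (π x' ^ ℓ - (π t' - π x')) = 0 := by
      linear_combination hq'' - h3
    rcases mul_eq_zero.1 h5 with h6 | h6
    · exfalso
      have h7 : ∃ v : ZMod ℓ, π x' = ι v := by
        have h8 : π x' ∈ (⊥ : Subfield K) :=
          (Subfield.mem_bot_iff_pow_eq_self K ℓ).2 (sub_eq_zero.1 h6)
        obtain ⟨n, hn⟩ := (mem_bot_iff_intCast ℓ K).1 h8
        exact ⟨n, by rw [← hn, map_intCast]⟩
      obtain ⟨v, hv⟩ := h7
      apply ht₁
      refine ⟨2 * v - t₁, hιinj ?_⟩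
      rw [map_sub, map_pow, map_mul, map_natCast, map_ofNat, map_mul, map_sub, map_mul, map_ofNat,
        ← hv, ← htt]
      linear_combination 4 * hq''
    · rw [map_sub]
      exact sub_eq_zero.1 h6
  -- a root of `h` above `t₁`
  obtain ⟨τ', hτ', hτt⟩ : ∃ τ' : 𝓞 L, aeval τ' h = 0 ∧ π τ' = ι t₁ := by
    have hsO : (h.map (Int.castRingHom (𝓞 L))).Splits := by
      have e1 : (h.map (Int.castRingHom (𝓞 L))).map (algebraMap (𝓞 L) L) =
          h.map (Int.castRingHom L) := by
        rw [Polynomial.map_map]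
        congr 1
      refine Splits.of_splits_map_of_injective hjinj (by rw [e1]; exact hs) ?_
      intro a ha
      rw [e1, mem_roots (hm.map _).ne_zero, IsRoot.def, eval_map, ← algebraMap_int_eq,
        ← aeval_def] at ha
      obtain ⟨b, hb, _⟩ := lift1 a ha
      exact ⟨b, hb⟩
    have h1 : (h.map (Int.castRingHom K)).eval (ι t₁) = 0 := by
      rw [← hιmap, hfac, Polynomial.map_mul, eval_mul]
      simp
    rw [← hπmap, hsO.eq_prod_roots_of_monic (hm.map _), Polynomial.map_multiset_prod,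
      eval_multiset_prod, Multiset.map_map, Multiset.map_map, Multiset.prod_eq_zero_iff] at h1
    obtain ⟨a, ha, h1⟩ := Multiset.mem_map.1 h1
    refine ⟨a, ?_, ?_⟩
    · rw [mem_roots (hm.map _).ne_zero, IsRoot.def, eval_map, ← algebraMap_int_eq,
        ← aeval_def] at ha
      exact ha
    · simp only [Function.comp_apply, Polynomial.map_sub, map_X, map_C, eval_sub, eval_X,
        eval_C] at h1
      exact (sub_eq_zero.1 h1).symm
  have hstab : ∀ x : L, x ≠ 0 → aeval (x + q / x) h = 0 →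
      σ x ≠ 0 ∧ aeval (σ x + q / σ x) h = 0 := by
    intro x hx0 hx
    refine ⟨(map_ne_zero σ).2 hx0, ?_⟩
    have h3 : σ x + q / σ x = σ (x + q / x) := by
      rw [map_add, map_div₀, map_natCast]
    rw [h3]
    have h4 : aeval (σ (x + q / x)) h = σ (aeval (x + q / x) h) := by
      have := aeval_algHom_apply ((σ : L →ₐ[ℚ] L).restrictScalars ℤ) (x + q / x) h
      exact this
    rw [h4, hx, map_zero]
  have hswap : ∀ x : L, x ≠ 0 → aeval (x + q / x) h = 0 →
      q / x ≠ 0 ∧ aeval (q / x + q / (q / x)) h = 0 := by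
    intro x hx0 hx
    have hqL : (q : L) ≠ 0 := by
      intro h0
      have : q = 0 := by exact_mod_cast h0
      exact hqℓ (by rw [this]; simp)
    refine ⟨div_ne_zero hqL hx0, ?_⟩
    have : q / x + q / (q / x) = x + q / x := by
      rw [div_div_cancel₀ hqL, add_comm]
    rw [this, hx]
  refine ⟨algebraMap (𝓞 L) L τ', σ, ?_, ?_, ?_, ?_⟩
  · rw [aeval_algebraMap_apply, hτ', map_zero]
  · intro h0
    apply hdisc τ' hτ'
    have h3 : τ' ^ 2 = 4 * (q : 𝓞 L) := hjinj (by
      rw [map_pow, map_mul, map_natCast, map_ofNat, h0])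
    rw [← map_pow, h3, map_mul, map_natCast, map_ofNat, sub_self]
  · intro x hx0 hx hne
    obtain ⟨x', t', hx', ht', htx, hqx⟩ := lift2 x hx0 hx
    have h3 : π t' ≠ ι t₁ := by
      intro h4
      apply hne
      rw [← ht', claim1 _ _ htx hτ' (h4.trans hτt.symm)]
    have h4 := sq_root x' t' hqx htx h3
    rw [← hσ] at h4
    exact inj (σ x) x (hstab x hx0 hx).1 (hstab x hx0 hx).2 hx0 hx (σ • x') x'
      (by rw [← hx']; rfl) hx' h4
  · intro x hx0 hx heq
    obtain ⟨x', t', hx', ht', htx, hqx⟩ := lift2 x hx0 hx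
    have h3 : t' = τ' := hjinj (by rw [ht', heq])
    have h4 := nsq_root x' t' hqx htx (by rw [h3, hτt])
    rw [← hσ] at h4
    exact inj (σ x) (q / x) (hstab x hx0 hx).1 (hstab x hx0 hx).2 (hswap x hx0 hx).1
      (hswap x hx0 hx).2 (σ • x') (t' - x') (by rw [← hx']; rfl)
      (by rw [map_sub, ht', hx']; ring) h4

end Frob

end Pool.Agent.Work.MP_223b32_ag_56
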