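import Mathlib

/-!
Frobenius elements in the Galois group of a number field over `ℚ`.
-/

namespace Pool.Agent.Work.MP_223b32_ag_56

open Polynomial NumberField

section Frob

variable (L : Type) [Field L] [NumberField L] [IsGalois ℚ L]

/-- Frobenius element -/
theorem exists_frob (ℓ : ℕ) [Fact ℓ.Prime] :
    ∃ (Q : Ideal (𝓞 L)) (σ : Gal(L/ℚ)), Q.IsMaximal ∧ (ℓ : 𝓞 L) ∈ Q ∧
      ∀ x : 𝓞 L, σ • x - x ^ ℓ ∈ Q := by
  have hℓ : ℓ.Prime := Fact.out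
  have hP : (Ideal.span {(ℓ : ℤ)}).IsMaximal := by
    have := (Nat.prime_iff_prime_int.1 hℓ)
    exact PrincipalIdealRing.isMaximal_of_irreducible this.irreducible
  obtain ⟨Q, hQ, hQP⟩ := Ideal.exists_maximal_ideal_liesOver_of_isIntegral
    (S := 𝓞 L) (Ideal.span {(ℓ : ℤ)})
  have hmem : (ℓ : 𝓞 L) ∈ Q := by
    have h1 : (ℓ : ℤ) ∈ Q.under ℤ := by
      rw [← hQP.over]
      exact Ideal.mem_span_singleton_self _
    rw [Ideal.mem_comap] at h1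
    simpa using h1
  have hQ0 : Q ≠ ⊥ := by
    rintro rfl
    rw [Ideal.mem_bot] at hmem
    exact hℓ.ne_zero (by exact_mod_cast hmem)
  have : Finite (𝓞 L ⧸ Q) := Ideal.finiteQuotientOfFreeOfNeBot Q hQ0
  have hQ' : Q.IsPrime := hQ.isPrime
  obtain ⟨σ, hσ⟩ := IsArithFrobAt.exists_of_isInvariant ℤ Gal(L/ℚ) Q
  refine ⟨Q, σ, hQ, hmem, fun x => ?_⟩
  have h2 := hσ x
  have h3 : Nat.card (ℤ ⧸ Q.under ℤ) = ℓ := by
    rw [← hQP.over]
    exact Int.card_ideal_quot ℓ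
  rw [h3] at h2
  exact h2

/-- Frobenius element, in terms of a ring homomorphism to a field of characteristic `ℓ`. -/
theorem exists_frob' (ℓ : ℕ) [Fact ℓ.Prime] :
    ∃ (K : Type) (_ : Field K) (_ : CharP K ℓ) (π : 𝓞 L →+* K) (σ : Gal(L/ℚ)),
      ∀ x : 𝓞 L, π (σ • x) = π x ^ ℓ := by
  obtain ⟨Q, σ, hQ, hℓQ, hσ⟩ := exists_frob L ℓ
  refine ⟨𝓞 L ⧸ Q, Ideal.Quotient.field Q, ?_, Ideal.Quotient.mk Q, σ, fun x => ?_⟩
  · refine (CharP.charP_iff_prime_eq_zero (Fact.out : ℓ.Prime)).2 ?_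
    have : Ideal.Quotient.mk Q (ℓ : 𝓞 L) = 0 := Ideal.Quotient.eq_zero_iff_mem.2 hℓQ
    simpa using this
  · have := Ideal.Quotient.eq.2 (hσ x)
    rw [this, map_pow]

end Frob

end Pool.Agent.Work.MP_223b32_ag_56
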