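import Pool.Agent.Work.MP_223b32_ag_56.Flip

/-!
Multiplicative independence of the roots of `f(x) = x ^ g h(x + q / x)` from one good prime.
-/

namespace Pool.Agent.Work.MP_223b32_ag_56

open Polynomial NumberField

/-- `x ^ g h (x + q / x)`. -/
noncomputable def fpoly (q : ℕ) (h : ℤ[X]) : ℚ[X] :=
  ∑ k ∈ Finset.range (h.natDegree + 1),
    C (h.coeff k : ℚ) * (X ^ 2 + C (q : ℚ)) ^ k * X ^ (h.natDegree - k)

theorem aeval_fpoly {E : Type*} [Field E] [CharZero E] [Algebra ℚ E] (q : ℕ) (h : ℤ[X]) {z : E}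
    (hz : z ≠ 0) : aeval z (fpoly q h) = z ^ h.natDegree * aeval (z + q / z) h := by
  rw [fpoly, map_sum, aeval_eq_sum_range, Finset.mul_sum]
  refine Finset.sum_congr rfl fun k hk => ?_
  have hk' : k ≤ h.natDegree := Nat.lt_succ_iff.1 (Finset.mem_range.1 hk)
  have h1 : z + q / z = (z ^ 2 + q) / z := by field_simp
  have h2 : z ^ h.natDegree = z ^ k * z ^ (h.natDegree - k) := by
    rw [← pow_add]; congr 1; omega
  rw [h1, div_pow, h2]
  simp only [map_mul, map_pow, map_add, aeval_X, map_intCast, map_natCast, zsmul_eq_mul]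
  field_simp

theorem fpoly_ne_zero {q : ℕ} (hq : q ≠ 0) {h : ℤ[X]} (hm : h.Monic) : fpoly q h ≠ 0 := by
  intro h0
  have h1 : eval 0 (fpoly q h) = (q : ℚ) ^ h.natDegree := by
    rw [fpoly, eval_finsetSum, Finset.sum_eq_single h.natDegree]
    · simp [hm.coeff_natDegree]
    · intro k hk hne
      have : h.natDegree - k ≠ 0 := by
        have := Finset.mem_range.1 hk
        omega
      simp [this]
    · intro hn
      exact absurd (Finset.mem_range.2 (Nat.lt_succ_self _)) hn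
  rw [h0, eval_zero] at h1
  exact pow_ne_zero h.natDegree (by exact_mod_cast hq : (q : ℚ) ≠ 0) h1.symm

section

variable {L : Type} [Field L] [NumberField L] [IsGalois ℚ L]

omit [IsGalois ℚ L] in
theorem aeval_equiv (σ : Gal(L/ℚ)) (x : L) (h : ℤ[X]) : aeval (σ x) h = σ (aeval x h) :=
  aeval_algHom_apply ((σ : L →ₐ[ℚ] L).restrictScalars ℤ) x h

/-- Flips at every root. -/
theorem flips {q ℓ : ℕ} [Fact ℓ.Prime] (h2 : ℓ ≠ 2) (hqℓ : (q : ZMod ℓ) ≠ 0) {h : ℤ[X]}
    (hm : h.Monic) (hirr : Irreducible (h.map (Int.castRingHom ℚ)))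
    (hs : (h.map (Int.castRingHom L)).Splits)
    (hgood : GoodMod q ℓ (h.map (Int.castRingHom (ZMod ℓ)))) {t : L} (ht : aeval t h = 0) :
    t ^ 2 ≠ 4 * q ∧ ∃ σ : Gal(L/ℚ),
      (∀ x : L, x ≠ 0 → aeval (x + q / x) h = 0 → x + q / x ≠ t → σ x = x) ∧
      (∀ x : L, x ≠ 0 → aeval (x + q / x) h = 0 → x + q / x = t → σ x = q / x) := by
  obtain ⟨τ₁, σ, h1, h3, h4, h5⟩ := flip h2 hqℓ hm hs hgood
  have hmin : ∀ u : L, aeval u h = 0 → minpoly ℚ u = h.map (Int.castRingHom ℚ) := by
    intro u hu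
    refine (minpoly.eq_of_irreducible_of_monic hirr ?_ (hm.map _)).symm
    rw [aeval_def, eval₂_map]
    have : (algebraMap ℚ L).comp (Int.castRingHom ℚ) = algebraMap ℤ L := Subsingleton.elim _ _
    rw [this]
    exact hu
  have horb : t ∈ MulAction.orbit Gal(L/ℚ) τ₁ :=
    (Normal.minpoly_eq_iff_mem_orbit L).1 ((hmin t ht).trans (hmin τ₁ h1).symm)
  obtain ⟨τ, hτ⟩ := horb
  have hτ' : τ τ₁ = t := hτ
  refine ⟨?_, τ * σ * τ⁻¹, ?_, ?_⟩
  · intro h0
    apply h3
    apply τ.injective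
    rw [map_pow, hτ', map_mul, map_natCast, h0]
    congr 1
    exact (map_ofNat τ 4).symm
  · intro x hx0 hx hne
    have e1 : τ⁻¹ x + q / τ⁻¹ x = τ⁻¹ (x + q / x) := by
      rw [map_add, map_div₀, map_natCast]
    have e2 := h4 (τ⁻¹ x) ((_root_.map_ne_zero _).2 hx0) (by rw [e1, aeval_equiv, hx, map_zero]) (by
      rw [e1]
      intro h0
      apply hne
      rw [← hτ', ← h0]
      exact (AlgEquiv.apply_symm_apply τ _).symm)
    show τ (σ (τ⁻¹ x)) = x
    rw [e2]
    exact AlgEquiv.apply_symm_apply τ _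
  · intro x hx0 hx heq
    have e1 : τ⁻¹ x + q / τ⁻¹ x = τ⁻¹ (x + q / x) := by
      rw [map_add, map_div₀, map_natCast]
    have e2 := h5 (τ⁻¹ x) ((_root_.map_ne_zero _).2 hx0) (by rw [e1, aeval_equiv, hx, map_zero]) (by
      rw [e1, heq, ← hτ']
      exact AlgEquiv.symm_apply_apply τ _)
    show τ (σ (τ⁻¹ x)) = q / x
    rw [e2, map_div₀, map_natCast]
    congr 1
    exact AlgEquiv.apply_symm_apply τ _

/-- No supersingular roots when the degree is at least two. -/
theorem nonsup {q ℓ : ℕ} [Fact ℓ.Prime] (h2 : ℓ ≠ 2) (hqℓ : (q : ZMod ℓ) ≠ 0) {h : ℤ[X]}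
    (hm : h.Monic) (hirr : Irreducible (h.map (Int.castRingHom ℚ)))
    (hs : (h.map (Int.castRingHom L)).Splits)
    (hgood : GoodMod q ℓ (h.map (Int.castRingHom (ZMod ℓ)))) (hdeg : h.natDegree ≠ 1)
    {x : L} (hx0 : x ≠ 0) (hx : aeval (x + q / x) h = 0) {N : ℕ} (hN : 0 < N) :
    x ^ (2 * N) ≠ (q : L) ^ N := by
  intro hxN
  have hqL : (q : L) ≠ 0 := by
    intro h0
    have : q = 0 := by exact_mod_cast h0
    exact hqℓ (by rw [this]; simp)
  have hmin : ∀ u : L, aeval u h = 0 → minpoly ℚ u = h.map (Int.castRingHom ℚ) := by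
    intro u hu
    refine (minpoly.eq_of_irreducible_of_monic hirr ?_ (hm.map _)).symm
    rw [aeval_def, eval₂_map]
    have : (algebraMap ℚ L).comp (Int.castRingHom ℚ) = algebraMap ℤ L := Subsingleton.elim _ _
    rw [this]
    exact hu
  obtain ⟨hdisc, σ, hσ1, hσ2⟩ := flips h2 hqℓ hm hirr hs hgood hx
  -- the root is not rational
  have hrat : ∀ c : ℚ, x + q / x ≠ algebraMap ℚ L c := by
    intro c hc
    have h3 := hmin _ hx
    rw [hc, minpoly.eq_X_sub_C] at h3
    have h4 := congrArg natDegree h3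
    rw [natDegree_X_sub_C, hm.natDegree_map] at h4
    exact hdeg h4.symm
  obtain ⟨τ, hτ⟩ : ∃ τ : Gal(L/ℚ), τ (x + q / x) ≠ x + q / x := by
    by_contra hcon
    push Not at hcon
    have h3 : x + q / x ∈ (⊥ : IntermediateField ℚ L) := (IsGalois.mem_bot_iff_fixed _).2 hcon
    obtain ⟨c, hc⟩ := IntermediateField.mem_bot.1 h3
    exact hrat c hc.symm
  have e1 : τ x + q / τ x = τ (x + q / x) := by rw [map_add, map_div₀, map_natCast]
  have e2 : σ (τ x) = τ x := hσ1 (τ x) ((_root_.map_ne_zero τ).2 hx0)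
    (by rw [e1, aeval_equiv, hx, map_zero]) (by rw [e1]; exact hτ)
  have e3 : σ x = q / x := hσ2 x hx0 hx rfl
  set ζ : L := x ^ 2 / q with hζ
  have hζN : ζ ^ N = 1 := by
    rw [hζ, div_pow, ← pow_mul, hxN, div_self (pow_ne_zero _ hqL)]
  have e4 : σ ζ = ζ⁻¹ := by
    rw [hζ, map_div₀, map_pow, map_natCast, e3]
    field_simp
  have e5 : σ (τ ζ) = τ ζ := by
    rw [hζ, map_div₀, map_pow, map_natCast, map_div₀, map_pow, map_natCast, e2]
  -- commutation on roots of unity
  have e6 : σ (τ ζ) = τ (σ ζ) := by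
    have : NeZero N := ⟨hN.ne'⟩
    obtain ⟨m, hm1⟩ : ∃ m : ℕ, σ ζ = ζ ^ m := by
      obtain ⟨m, hm⟩ := map_rootsOfUnity_eq_pow_self σ
        (rootsOfUnity.mkOfPowEq ζ hζN : rootsOfUnity N L)
      exact ⟨m, by simpa using hm⟩
    obtain ⟨k, hk1⟩ : ∃ k : ℕ, τ ζ = ζ ^ k := by
      obtain ⟨m, hm⟩ := map_rootsOfUnity_eq_pow_self τ
        (rootsOfUnity.mkOfPowEq ζ hζN : rootsOfUnity N L)
      exact ⟨m, by simpa using hm⟩
    rw [hk1, map_pow, hm1, map_pow, hk1, ← pow_mul, ← pow_mul, mul_comm]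
  have hζ0 : ζ ≠ 0 := by
    rw [hζ]
    exact div_ne_zero (pow_ne_zero _ hx0) hqL
  have e7 : ζ = ζ⁻¹ := by
    apply τ.injective
    rw [← e4, ← e6, e5]
  have e8 : ζ ^ 2 = 1 := by
    rw [pow_two]
    nth_rewrite 2 [e7]
    exact mul_inv_cancel₀ hζ0
  have e9 : (x ^ 2 - q) * (x ^ 2 + q) = 0 := by
    rw [hζ] at e8
    field_simp at e8
    linear_combination e8
  rcases mul_eq_zero.1 e9 with e10 | e10
  · apply hdisc
    have : (q : L) = x ^ 2 := (sub_eq_zero.1 e10).symm
    rw [this]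
    field_simp
    ring
  · apply hrat 0
    rw [map_zero]
    have : (q : L) = -x ^ 2 := by linear_combination e10
    rw [this]
    field_simp
    ring

theorem prod_div_flip {F : Type*} [Field F] [DecidableEq F] {x y : F} (hxy : x ≠ y) (φ : F → F)
    (h1 : φ x = y) (h2 : φ y = x) (s : Multiset F) (hs : ∀ z ∈ s, z ≠ 0)
    (h3 : ∀ z ∈ s, z ≠ x → z ≠ y → φ z = z) :
    (s.map fun z => z / φ z).prod = (x / y) ^ s.count x * (y / x) ^ s.count y := by
  induction s using Multiset.induction_on with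
  | empty => simp
  | cons a s ih =>
    have ih' := ih (fun z hz => hs z (Multiset.mem_cons_of_mem hz))
      (fun z hz => h3 z (Multiset.mem_cons_of_mem hz))
    rw [Multiset.map_cons, Multiset.prod_cons, ih']
    by_cases hax : a = x
    · subst hax
      rw [Multiset.count_cons_self, Multiset.count_cons_of_ne hxy.symm, h1, pow_succ]
      ring
    · by_cases hay : a = y
      · subst hay
        rw [Multiset.count_cons_self, Multiset.count_cons_of_ne hxy, h2, pow_succ]
        ring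
      · rw [Multiset.count_cons_of_ne (Ne.symm hax), Multiset.count_cons_of_ne (Ne.symm hay),
          h3 a (Multiset.mem_cons_self _ _) hax hay,
          div_self (hs a (Multiset.mem_cons_self _ _)), one_mul]

omit [IsGalois ℚ L] in
/-- The relation argument in the field `L`. -/
theorem count_field {q : ℕ} {h : ℤ[X]} (hq : q ≠ 0) {x : L} (hx0 : x ≠ 0)
    (hns : ∀ N : ℕ, 0 < N → x ^ (2 * N) ≠ (q : L) ^ N)
    {σ : Gal(L/ℚ)}
    (h1 : ∀ z : L, z ≠ 0 → aeval (z + q / z) h = 0 → z + q / z ≠ x + q / x → σ z = z)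
    (h2 : ∀ z : L, z ≠ 0 → aeval (z + q / z) h = 0 → z + q / z = x + q / x → σ z = q / z)
    (hx : aeval (x + q / x) h = 0) [DecidableEq L]
    {s : Multiset L} (hs : ∀ z ∈ s, z ≠ 0 ∧ aeval (z + q / z) h = 0) {n m : ℕ} (hn : 0 < n)
    (hprod : s.prod ^ n = (q : L) ^ m) : s.count (q / x) = s.count x := by
  have hqL : (q : L) ≠ 0 := by exact_mod_cast hq
  by_cases hxq : x = q / x
  · rw [← hxq]
  have hswap : q / x + q / (q / x) = x + q / x := by
    rw [div_div_cancel₀ hqL, add_comm]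
  have e1 : σ x = q / x := h2 x hx0 hx rfl
  have e2 : σ (q / x) = x := by
    rw [h2 (q / x) (div_ne_zero hqL hx0) (by rw [hswap, hx]) hswap, div_div_cancel₀ hqL]
  have e3 : ∀ z ∈ s, z ≠ x → z ≠ q / x → σ z = z := by
    intro z hz hzx hzy
    refine h1 z (hs z hz).1 (hs z hz).2 fun heq => ?_
    have hz0 := (hs z hz).1
    have e4 : (z - x) * (z - q / x) = 0 := by
      have e5 : z * (q / z) = q := by field_simp
      have e6 : x * (q / x) = q := by field_simp
      linear_combination z * heq - e5 + e6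
    rcases mul_eq_zero.1 e4 with e5 | e5
    · exact hzx (sub_eq_zero.1 e5)
    · exact hzy (sub_eq_zero.1 e5)
  have e4 := prod_div_flip hxq σ e1 e2 s (fun z hz => (hs z hz).1) e3
  have e5 : (s.map fun z => z / σ z).prod = s.prod / σ s.prod := by
    rw [Multiset.prod_map_div, Multiset.map_id', map_multiset_prod]
  have e6 : ((s.map fun z => z / σ z).prod) ^ n = 1 := by
    rw [e5, div_pow, ← map_pow, hprod, map_pow, map_natCast]
    exact div_self (pow_ne_zero _ hqL)
  rw [e4, mul_pow, ← pow_mul, ← pow_mul] at e6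
  set w : L := x / (q / x) with hw
  have hw0 : w ≠ 0 := div_ne_zero hx0 (div_ne_zero hqL hx0)
  have hw' : q / x / x = w⁻¹ := by rw [hw, inv_div]
  rw [hw'] at e6
  have hwx : w = x ^ 2 / q := by
    rw [hw]; field_simp
  have hne : ∀ N : ℕ, 0 < N → w ^ N ≠ 1 := by
    intro N hN h0
    apply hns N hN
    rw [hwx, div_pow, div_eq_one_iff_eq (pow_ne_zero _ hqL), ← pow_mul] at h0
    exact h0
  have e7 : w ^ (s.count x * n) = w ^ (s.count (q / x) * n) := by
    rw [inv_pow] at e6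
    exact (mul_inv_eq_one₀ (pow_ne_zero _ hw0)).1 e6
  by_contra hcon
  rcases Nat.lt_or_gt_of_ne hcon with hlt | hlt
  · have e8 : w ^ ((s.count x - s.count (q / x)) * n) = 1 := by
      have e9 : s.count x * n = (s.count x - s.count (q / x)) * n + s.count (q / x) * n := by
        rw [← add_mul]; congr 1; omega
      rw [e9, pow_add] at e7
      exact mul_right_cancel₀ (pow_ne_zero _ hw0) (by rw [e7, one_mul])
    exact hne _ (Nat.mul_pos (by omega) hn) e8
  · have e8 : w ^ ((s.count (q / x) - s.count x) * n) = 1 := by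
      have e9 : s.count (q / x) * n = (s.count (q / x) - s.count x) * n + s.count x * n := by
        rw [← add_mul]; congr 1; omega
      rw [e9, pow_add] at e7
      exact mul_right_cancel₀ (pow_ne_zero _ hw0) (by rw [← e7, one_mul])
    exact hne _ (Nat.mul_pos (by omega) hn) e8

end

/-- Multiplicative independence of the complex roots. -/
theorem count_eq {q ℓ : ℕ} [Fact ℓ.Prime] (h2 : ℓ ≠ 2) (hqℓ : (q : ZMod ℓ) ≠ 0) {h : ℤ[X]}
    (hm : h.Monic) (hirr : Irreducible (h.map (Int.castRingHom ℚ)))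
    (hns : h.natDegree = 1 → ∀ z : ℂ, z ≠ 0 → aeval (z + q / z) h = 0 → ∀ N : ℕ, 0 < N →
      z ^ (2 * N) ≠ (q : ℂ) ^ N)
    (hgood : GoodMod q ℓ (h.map (Int.castRingHom (ZMod ℓ))))
    (s : Multiset ℂ) (hs : ∀ z ∈ s, z ≠ 0 ∧ aeval (z + q / z) h = 0) (n j : ℕ) (hn : 0 < n)
    (hprod : s.prod ^ n = (q : ℂ) ^ (n * j)) (z : ℂ) (hz : z ≠ 0 ∧ aeval (z + q / z) h = 0) :
    s.count (q / z) = s.count z := by
  classical
  have hq0 : q ≠ 0 := by
    rintro rfl
    exact hqℓ (by simp)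
  obtain ⟨L, _, _, hL⟩ : ∃ (L : Type) (_ : Field L) (_ : CharZero L),
      IsSplittingField ℚ L (fpoly q h) := by
    obtain ⟨L, i1, i2, hL⟩ : ∃ (L : Type) (_ : Field L) (_ : Algebra ℚ L),
        IsSplittingField ℚ L (fpoly q h) :=
      ⟨(fpoly q h).SplittingField, _, _, IsSplittingField.splittingField _⟩
    have i3 : CharZero L := charZero_of_injective_algebraMap (algebraMap ℚ L).injective
    refine ⟨L, i1, i3, ?_⟩
    obtain rfl : i2 = DivisionRing.toRatAlgebra := Subsingleton.elim _ _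
    exact hL
  have hfin : FiniteDimensional ℚ L := IsSplittingField.finiteDimensional L (fpoly q h)
  have hnf : NumberField L := ⟨⟩
  have hnorm : Normal ℚ L := Normal.of_isSplittingField (fpoly q h)
  have hgal : IsGalois ℚ L := ⟨⟩
  let toC : L →ₐ[ℚ] ℂ := IsAlgClosed.lift
  have hinj : Function.Injective toC := RingHom.injective _
  have hfp : fpoly q h ≠ 0 := fpoly_ne_zero hq0 hm
  -- every complex root comes from `L`
  have hmemC : ∀ y : ℂ, y ≠ 0 → aeval (y + q / y) h = 0 →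
      ∃ x : L, toC x = y ∧ x ≠ 0 ∧ aeval (x + q / x) h = 0 := by
    intro y hy0 hy
    have h1 : y ∈ (fpoly q h).rootSet ℂ := by
      refine mem_rootSet.2 ⟨hfp, ?_⟩
      rw [aeval_fpoly q h hy0, hy, mul_zero]
    rw [← (IsSplittingField.splits L (fpoly q h)).image_rootSet toC] at h1
    obtain ⟨x, hx, rfl⟩ := h1
    refine ⟨x, rfl, ?_, hinj ?_⟩
    · rintro rfl
      exact hy0 (map_zero toC)
    · rw [map_zero, ← hy]
      have h3 : toC x + q / toC x = toC (x + q / x) := by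
        rw [map_add, map_div₀, map_natCast]
      rw [h3]
      exact (aeval_algHom_apply (toC.restrictScalars ℤ) (x + q / x) h).symm
  -- `h` splits in `L`
  have hsL : (h.map (Int.castRingHom L)).Splits := by
    have e1 : (h.map (Int.castRingHom L)).map (toC : L →+* ℂ) = h.map (Int.castRingHom ℂ) := by
      rw [Polynomial.map_map]
      congr 1
      exact Subsingleton.elim _ _
    refine Splits.of_splits_map_of_injective (i := (toC : L →+* ℂ)) hinj
      (by rw [e1]; exact IsAlgClosed.splits _) ?_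
    intro τ hτ
    rw [e1, mem_roots (hm.map _).ne_zero, IsRoot.def, eval_map, ← algebraMap_int_eq,
      ← aeval_def] at hτ
    obtain ⟨y, hy⟩ : ∃ y : ℂ, y ^ 2 - τ * y + q = 0 := by
      obtain ⟨d, hd⟩ := IsAlgClosed.exists_pow_nat_eq (τ ^ 2 - 4 * q) (n := 2) (by norm_num)
      refine ⟨(τ + d) / 2, ?_⟩
      linear_combination (1 / 4 : ℂ) * hd
    have hy0 : y ≠ 0 := by
      rintro rfl
      apply hq0
      have : (q : ℂ) = 0 := by linear_combination hy
      exact_mod_cast this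
    have hτy : τ = y + q / y := by
      field_simp
      linear_combination (-1 : ℂ) * hy
    obtain ⟨x, hx, -, -⟩ := hmemC y hy0 (by rw [← hτy]; exact hτ)
    refine ⟨x + q / x, ?_⟩
    rw [hτy, ← hx]
    show toC (x + q / x) = _
    rw [map_add, map_div₀, map_natCast]
  obtain ⟨x, hxz, hx0, hx⟩ := hmemC z hz.1 hz.2
  obtain ⟨s', hs'⟩ : ∃ s' : Multiset L, s'.map toC = s ∧
      ∀ x ∈ s', x ≠ 0 ∧ aeval (x + q / x) h = 0 := by
    clear hprod
    induction s using Multiset.induction_on with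
    | empty => exact ⟨0, rfl, by simp⟩
    | cons a s ih =>
      obtain ⟨s', h3, h4⟩ := ih (fun y hy => hs y (Multiset.mem_cons_of_mem hy))
      obtain ⟨b, hb, hb1, hb2⟩ := hmemC a (hs a (Multiset.mem_cons_self _ _)).1
        (hs a (Multiset.mem_cons_self _ _)).2
      refine ⟨b ::ₘ s', by rw [Multiset.map_cons, hb, h3], ?_⟩
      intro y hy
      rcases Multiset.mem_cons.1 hy with rfl | hy
      · exact ⟨hb1, hb2⟩
      · exact h4 y hy
  obtain ⟨hs1, hs2⟩ := hs'
  obtain ⟨-, σ, hσ1, hσ2⟩ := flips h2 hqℓ hm hirr hsL hgood hx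
  have hnsL : ∀ N : ℕ, 0 < N → x ^ (2 * N) ≠ (q : L) ^ N := by
    intro N hN
    by_cases hd : h.natDegree = 1
    · intro h0
      apply hns hd z hz.1 hz.2 N hN
      rw [← hxz, ← map_pow, h0, map_pow, map_natCast]
    · exact nonsup h2 hqℓ hm hirr hsL hgood hd hx0 hx hN
  have hprod' : s'.prod ^ n = (q : L) ^ (n * j) := by
    apply hinj
    rw [map_pow, map_pow, map_natCast, map_multiset_prod, hs1, hprod]
  have key := count_field hq0 hx0 hnsL hσ1 hσ2 hx hs2 hn hprod'
  have e1 : ((q : ℂ) / z) = toC (q / x) := by rw [map_div₀, map_natCast, hxz]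
  rw [e1, ← hxz, ← hs1, Multiset.count_map_eq_count' _ _ hinj, Multiset.count_map_eq_count' _ _ hinj]
  exact key

end Pool.Agent.Work.MP_223b32_ag_56
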