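import Pool.Agent.Work.MP_223b32_ag_56.Dens
import Pool.Agent.Work.MP_223b32_ag_56.Defs
import Pool.Agent.Work.MP_223b32_ag_56.Box

/-!
Many polynomials with all their roots real and small.
-/

namespace Pool.Agent.Work.MP_223b32_ag_56

open Polynomial Finset

section

variable {g : ℕ}

/-- The nodes. -/
noncomputable def node (g : ℕ) (k : ℕ) : ℝ := k / (g + 1)

/-- The roots of the model polynomial. -/
noncomputable def rt (g : ℕ) (m : ℕ) : ℝ := (2 * m + 1) / (2 * (g + 1))

/-- The model polynomial. -/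
noncomputable def h0 (g : ℕ) : ℝ[X] := ∏ m : Fin g, (X - C (rt g m))

theorem h0_eval (y : ℝ) : (h0 g).eval y = ∏ m : Fin g, (y - rt g m) := by
  simp [h0, eval_prod]

theorem node_sub (k m : ℕ) : node g k - rt g m = ((2 * k - 2 * m - 1 : ℤ) : ℝ) / (2 * (g + 1)) := by
  have : (g : ℝ) + 1 ≠ 0 := by positivity
  rw [node, rt]
  push_cast
  field_simp
  ring

theorem h0_large (k : ℕ) : (1 / (2 * ((g : ℝ) + 1))) ^ g ≤ |(h0 g).eval (node g k)| := by
  rw [h0_eval, abs_prod]
  calc (1 / (2 * ((g : ℝ) + 1))) ^ g = ∏ _m : Fin g, (1 / (2 * ((g : ℝ) + 1))) := by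
        rw [prod_const, card_univ, Fintype.card_fin]
    _ ≤ _ := by
        refine prod_le_prod (fun _ _ => by positivity) fun m _ => ?_
        rw [node_sub, abs_div, abs_of_pos (by positivity : (0 : ℝ) < 2 * (g + 1))]
        gcongr
        rw [← Int.cast_abs]
        have : 1 ≤ |(2 * (k : ℤ) - 2 * ((m : ℕ) : ℤ) - 1)| := Int.one_le_abs (by omega)
        exact_mod_cast this

theorem h0_sign (k : Fin g) :
    (h0 g).eval (node g k) * (h0 g).eval (node g (k + 1)) < 0 := by
  classical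
  rw [h0_eval, h0_eval, ← prod_mul_distrib, ← mul_prod_erase univ _ (mem_univ k)]
  have hpos : (0 : ℝ) < 2 * (g + 1) := by positivity
  refine mul_neg_of_neg_of_pos ?_ (prod_pos fun m hm => ?_)
  · rw [node_sub, node_sub, div_mul_div_comm]
    refine div_neg_of_neg_of_pos ?_ (by positivity)
    push_cast
    nlinarith
  · have hmk : ((m : ℕ) : ℤ) ≠ (k : ℕ) := by
      intro h
      exact (ne_of_mem_erase hm) (Fin.ext (by exact_mod_cast h))
    rw [node_sub, node_sub, div_mul_div_comm]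
    refine div_pos ?_ (by positivity)
    have : 0 < (2 * ((k : ℕ) : ℤ) - 2 * ((m : ℕ) : ℤ) - 1) *
        (2 * (((k : ℕ) + 1 : ℕ) : ℤ) - 2 * ((m : ℕ) : ℤ) - 1) := by
      rcases lt_or_gt_of_ne hmk with h | h
      · have h1 : 0 < 2 * ((k : ℕ) : ℤ) - 2 * ((m : ℕ) : ℤ) - 1 := by omega
        have h2 : 0 < 2 * (((k : ℕ) + 1 : ℕ) : ℤ) - 2 * ((m : ℕ) : ℤ) - 1 := by
          push_cast; omega
        exact mul_pos h1 h2
      · have h1 : 2 * ((k : ℕ) : ℤ) - 2 * ((m : ℕ) : ℤ) - 1 < 0 := by omega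
        have h2 : 2 * (((k : ℕ) + 1 : ℕ) : ℤ) - 2 * ((m : ℕ) : ℤ) - 1 < 0 := by
          push_cast; omega
        exact mul_pos_of_neg_of_neg h1 h2
    exact_mod_cast this

theorem mk_eval {R : Type*} [CommRing R] (β : Fin g → R) (y : R) :
    (mk β).eval y = y ^ g + ∑ i : Fin g, β i * y ^ (i : ℕ) := by
  simp [mk, eval_finsetSum]

theorem h0_eq_mk : mk (fun i : Fin g => (h0 g).coeff i) = h0 g := by
  have h1 : (h0 g).Monic := monic_prod_of_monic _ _ fun _ _ => monic_X_sub_C _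
  refine mk_surj h1 ?_
  rw [h0, natDegree_prod_of_monic _ _ fun _ _ => monic_X_sub_C _]
  simp

theorem node_mem (k : ℕ) (hk : k ≤ g) : 0 ≤ node g k ∧ node g k < 1 := by
  rw [node]
  refine ⟨by positivity, ?_⟩
  rw [div_lt_one (by positivity)]
  have : (k : ℝ) ≤ g := by exact_mod_cast hk
  linarith

/-- The perturbed polynomial has its roots between the nodes. -/
theorem perturb {δ : ℝ} (hδ : g * δ < (1 / (2 * ((g : ℝ) + 1))) ^ g) (β : Fin g → ℝ)
    (hβ : ∀ i, |β i - (h0 g).coeff i| ≤ δ) :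
    ∀ z : ℂ, ((mk β).map (algebraMap ℝ ℂ)).IsRoot z → z.im = 0 ∧ 0 < z.re ∧ z.re < 1 := by
  classical
  have hclose : ∀ k ≤ g, |(mk β).eval (node g k) - (h0 g).eval (node g k)| ≤ g * δ := by
    intro k hk
    obtain ⟨n1, n2⟩ := node_mem k hk
    have h1 : (h0 g).eval (node g k) =
        (node g k) ^ g + ∑ i : Fin g, (h0 g).coeff i * (node g k) ^ (i : ℕ) := by
      conv_lhs => rw [← h0_eq_mk]
      rw [mk_eval]
    rw [h1, mk_eval, add_sub_add_left_eq_sub, ← sum_sub_distrib]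
    refine (abs_sum_le_sum_abs _ _).trans ?_
    calc ∑ i : Fin g, |β i * node g k ^ (i : ℕ) - (h0 g).coeff i * node g k ^ (i : ℕ)|
        ≤ ∑ _i : Fin g, δ := by
          refine sum_le_sum fun i _ => ?_
          rw [← sub_mul, abs_mul]
          have e1 : |node g k ^ (i : ℕ)| ≤ 1 := by
            rw [abs_of_nonneg (pow_nonneg n1 _)]
            exact pow_le_one₀ n1 n2.le
          calc |β i - (h0 g).coeff i| * |node g k ^ (i : ℕ)| ≤ |β i - (h0 g).coeff i| * 1 := by
                gcongr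
            _ ≤ δ := by rw [mul_one]; exact hβ i
      _ = g * δ := by simp
  have hsame : ∀ k ≤ g, 0 < (mk β).eval (node g k) * (h0 g).eval (node g k) := by
    intro k hk
    have h1 := hclose k hk
    have h2 := h0_large (g := g) k
    have h3 : |(mk β).eval (node g k) - (h0 g).eval (node g k)| < |(h0 g).eval (node g k)| :=
      (h1.trans_lt hδ).trans_le h2
    set u := (mk β).eval (node g k)
    set v := (h0 g).eval (node g k)
    rcases lt_trichotomy v 0 with hv | hv | hv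
    · rw [abs_of_neg hv] at h3
      have := (abs_lt.1 h3).2
      exact mul_pos_of_neg_of_neg (by linarith) hv
    · rw [hv, abs_zero] at h3
      exact absurd h3 (not_lt.2 (abs_nonneg _))
    · rw [abs_of_pos hv] at h3
      have := (abs_lt.1 h3).1
      exact mul_pos (by linarith) hv
  have hneg : ∀ k : Fin g, (mk β).eval (node g k) * (mk β).eval (node g (k + 1)) < 0 := by
    intro k
    have h1 := hsame k k.2.le
    have h2 := hsame (k + 1) k.2
    have h3 := h0_sign k
    set u := (mk β).eval (node g k)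
    set u' := (mk β).eval (node g (k + 1))
    set v := (h0 g).eval (node g k)
    set v' := (h0 g).eval (node g (k + 1))
    have h4 : 0 < (u * u') * (v * v') := by
      have := mul_pos h1 h2
      nlinarith
    by_contra hcon
    push Not at hcon
    nlinarith
  have hroot : ∀ k : Fin g, ∃ ρ : ℝ, node g k < ρ ∧ ρ < node g (k + 1) ∧ (mk β).eval ρ = 0 := by
    intro k
    have hlt : node g k < node g (k + 1) := by
      rw [node, node]
      push_cast
      gcongr
      linarith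
    have hcont : ContinuousOn (fun y => (mk β).eval y) (Set.Icc (node g k) (node g (k + 1))) :=
      (mk β).continuous.continuousOn
    rcases mul_neg_iff.1 (hneg k) with ⟨h1, h2⟩ | ⟨h1, h2⟩
    · have h3 := intermediate_value_Ioo' hlt.le hcont
      obtain ⟨ρ, hρ, hρ0⟩ := h3 ⟨h2, h1⟩
      exact ⟨ρ, hρ.1, hρ.2, hρ0⟩
    · have h3 := intermediate_value_Ioo hlt.le hcont
      obtain ⟨ρ, hρ, hρ0⟩ := h3 ⟨h1, h2⟩
      exact ⟨ρ, hρ.1, hρ.2, hρ0⟩
  choose ρ hρ1 hρ2 hρ3 using hroot
  have hmono : StrictMono ρ := by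
    intro k k' hkk
    have h1 : node g (k + 1) ≤ node g k' := by
      rw [node, node]
      push_cast
      have : (k : ℝ) + 1 ≤ (k' : ℕ) := by exact_mod_cast hkk
      gcongr
    exact (hρ2 k).trans_le (h1.trans (hρ1 k').le)
  have hinj : Function.Injective ρ := hmono.injective
  have hprod : mk β = ∏ k : Fin g, (X - C (ρ k)) := by
    have hmonic := mk_monic β
    have h1 : (univ.image ρ).val ≤ (mk β).roots := by
      rw [Multiset.le_iff_subset (univ.image ρ).nodup]
      intro x hx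
      obtain ⟨k, _, rfl⟩ := mem_image.1 (show x ∈ univ.image ρ from hx)
      exact (mem_roots hmonic.ne_zero).2 (hρ3 k)
    have h2 : (mk β).roots = (univ.image ρ).val := by
      refine (Multiset.eq_of_le_of_card_le h1 ?_).symm
      rw [card_val, card_image_of_injective _ hinj, card_univ, Fintype.card_fin]
      exact (card_roots' _).trans (mk_natDegree β).le
    have h3 := prod_multiset_X_sub_C_of_monic_of_roots_card_eq hmonic (by
      rw [h2, card_val, card_image_of_injective _ hinj, card_univ, Fintype.card_fin,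
        mk_natDegree])
    rw [← h3, h2]
    show ∏ x ∈ univ.image ρ, (X - C x) = _
    rw [prod_image fun x _ y _ h => hinj h]
  intro z hz
  rw [hprod, Polynomial.map_prod, IsRoot.def, eval_prod, prod_eq_zero_iff] at hz
  obtain ⟨k, _, hk⟩ := hz
  rw [Polynomial.map_sub, map_X, map_C, eval_sub, eval_X, eval_C, sub_eq_zero] at hk
  have hk' : z = ((ρ k : ℝ) : ℂ) := hk
  rw [hk', Complex.ofReal_im, Complex.ofReal_re]
  exact ⟨rfl, (node_mem k k.2.le).1.trans_lt (hρ1 k), (hρ2 k).trans_le (node_mem (k + 1) k.2).2.le⟩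

/-- Integers not divisible by `p` in an interval. -/
theorem exists_integers (p : ℕ) (hp : 2 ≤ p) (A D : ℝ) (hD : 2 ≤ D) :
    ∃ S : Finset ℤ, (∀ b ∈ S, |(b : ℝ) - A| ≤ D ∧ ¬ (p : ℤ) ∣ b) ∧ D / 2 ≤ S.card := by
  classical
  set u : ℤ := ⌈A - D⌉ with hu
  let φ : ℕ → ℤ := fun j => if (p : ℤ) ∣ u + 2 * j then u + 2 * j + 1 else u + 2 * j
  have hφ : ∀ j, φ j = u + 2 * j ∨ φ j = u + 2 * j + 1 := by
    intro j
    simp only [φ]
    split_ifs
    · exact Or.inr rfl
    · exact Or.inl rfl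
  refine ⟨(range ⌊D⌋₊).image φ, ?_, ?_⟩
  · intro b hb
    obtain ⟨j, hj, rfl⟩ := mem_image.1 hb
    constructor
    · have h1 : (j : ℝ) + 1 ≤ D := by
        have h2 : j + 1 ≤ ⌊D⌋₊ := mem_range.1 hj
        have h3 : ((j + 1 : ℕ) : ℝ) ≤ (⌊D⌋₊ : ℝ) := by exact_mod_cast h2
        have h4 := Nat.floor_le (by linarith : (0 : ℝ) ≤ D)
        push_cast at h3
        linarith
      have h2 := Int.le_ceil (A - D)
      have h3 := Int.ceil_lt_add_one (A - D)
      rw [← hu] at h2 h3
      have h5 : ((0 : ℕ) : ℝ) ≤ j := by exact_mod_cast Nat.zero_le j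
      push_cast at h5
      rw [abs_le]
      rcases hφ j with h | h <;> rw [h] <;> push_cast <;> constructor <;> linarith
    · simp only [φ]
      split_ifs with h
      · intro h'
        have h1 : (p : ℤ) ∣ 1 := by
          have := dvd_sub h' h
          simpa using this
        have h2 : (p : ℤ) ≤ 1 := Int.le_of_dvd one_pos h1
        have : (2 : ℤ) ≤ p := by exact_mod_cast hp
        omega
      · exact h
  · rw [card_image_of_injective, card_range]
    · have h1 := Nat.lt_floor_add_one D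
      linarith
    · intro j j' h
      rcases hφ j with h1 | h1 <;> rcases hφ j' with h2 | h2 <;> omega

/-- The exponent `g (g + 1) / 2`. -/
def expo (g : ℕ) : ℕ := ∑ i : Fin g, (g - (i : ℕ))

/-- Radii of the box containing all real Weil polynomials. -/
def rad (g r : ℕ) (i : Fin g) : ℕ := (2 * r) ^ (g - (i : ℕ)) * g.choose i

theorem mk_injective : Function.Injective (mk : (Fin g → ℤ) → ℤ[X]) := by
  intro b b' h
  funext i
  rw [← mk_coeff b i, h, mk_coeff]

theorem realWeil_subset {q r : ℕ} (hr : q ≤ r ^ 2) :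
    realWeil q g ⊆ mk '' ((box (rad g r) : Finset (Fin g → ℤ)) : Set (Fin g → ℤ)) := by
  rintro h ⟨hm, hd, hroots⟩
  refine ⟨fun i => h.coeff i, ?_, mk_surj hm hd⟩
  rw [mem_coe, box, Fintype.mem_piFinset]
  intro i
  have h1 := coeff_le_of_roots_le (f := Int.castRingHom ℂ) (B := 2 * r) (i : ℕ) hm
    (IsAlgClosed.splits _) (by
      intro z hz
      rw [mem_roots (hm.map _).ne_zero, IsRoot.def, eval_map, ← algebraMap_int_eq,
        ← aeval_def] at hz
      obtain ⟨h2, h3⟩ := hroots z hz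
      have h4 : ‖z‖ ^ 2 = z.re ^ 2 := by
        rw [Complex.sq_norm, Complex.normSq_apply, h2]; ring
      have h5 : ‖z‖ ^ 2 ≤ (2 * (r : ℝ)) ^ 2 := by
        have hr' : (q : ℝ) ≤ (r : ℝ) ^ 2 := by exact_mod_cast hr
        rw [h4]; nlinarith
      exact abs_le_of_sq_le_sq' h5 (by positivity) |>.2)
  rw [coeff_map, hd] at h1
  have h2 : ‖(Int.castRingHom ℂ) (h.coeff i)‖ = |((h.coeff i : ℤ) : ℝ)| := by
    simp
  rw [h2] at h1
  have h3 : |h.coeff i| ≤ ((rad g r i : ℕ) : ℤ) := by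
    have : |((h.coeff i : ℤ) : ℝ)| ≤ ((rad g r i : ℕ) : ℝ) := by
      rw [rad]; push_cast; exact h1
    exact_mod_cast this
  rw [mem_Icc]
  exact abs_le.1 h3

theorem realWeil_finite (q : ℕ) : (realWeil q g).Finite := by
  refine (Set.Finite.image mk (finite_toSet (box (rad g q)))).subset (realWeil_subset ?_)
  nlinarith [Nat.le_self_pow two_ne_zero q]

theorem aeval_mk_scale {s : ℝ} (hs : 0 < s) (b : Fin g → ℤ) (z : ℂ) :
    aeval z (mk b) = (s : ℂ) ^ g *
      ((mk fun i : Fin g => (b i : ℝ) / s ^ (g - (i : ℕ))).map (algebraMap ℝ ℂ)).eval (z / s) := by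
  have hs' : (s : ℂ) ≠ 0 := by exact_mod_cast hs.ne'
  rw [mk_map, mk_eval, aeval_def, eval₂_eq_eval_map, mk_map, mk_eval, mul_add, mul_sum]
  congr 1
  · rw [div_pow]; field_simp
  · refine sum_congr rfl fun i _ => ?_
    have h1 : (s : ℂ) ^ g = s ^ (i : ℕ) * s ^ (g - (i : ℕ)) := by
      rw [← pow_add]; congr 1; omega
    rw [h1]
    have h2 : (algebraMap ℝ ℂ) ((b i : ℝ) / s ^ (g - (i : ℕ))) = (b i : ℂ) / (s : ℂ) ^ (g - (i : ℕ)) := by
      simp
    rw [h2, div_pow]
    have h3 : (algebraMap ℤ ℂ) (b i) = (b i : ℂ) := by simp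
    rw [h3]
    field_simp

/-- Many ordinary real Weil polynomials. -/
theorem lower (hg : 1 ≤ g) : ∃ κ > (0 : ℝ), ∃ s₀ : ℝ, ∀ p a : ℕ, p.Prime → ∀ s : ℝ, s₀ ≤ s →
    s ^ 2 = ((p ^ a : ℕ) : ℝ) →
    κ * s ^ expo g ≤ ({h ∈ realWeil (p ^ a) g | ¬ (p : ℤ) ∣ h.coeff 0} : Set ℤ[X]).ncard := by
  classical
  set η : ℝ := (1 / (2 * ((g : ℝ) + 1))) ^ g with hη
  have hη0 : 0 < η := by positivity
  have hg' : (1 : ℝ) ≤ g := by exact_mod_cast hg
  set δ : ℝ := η / (2 * g) with hδ
  have hδ0 : 0 < δ := by positivity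
  have hδ1 : g * δ < η := by
    have : g * δ = η / 2 := by rw [hδ]; field_simp
    rw [this]; linarith
  refine ⟨(δ / 2) ^ g, by positivity, max 1 (2 / δ), fun p a hp s hs hsq => ?_⟩
  have hs1 : 1 ≤ s := (le_max_left _ _).trans hs
  have hs2 : 2 / δ ≤ s := (le_max_right _ _).trans hs
  have hs0 : 0 < s := by linarith
  have hD : ∀ i : Fin g, 2 ≤ δ * s ^ (g - (i : ℕ)) := by
    intro i
    have h1 : s ≤ s ^ (g - (i : ℕ)) := le_self_pow₀ hs1 (by omega)
    rw [div_le_iff₀ hδ0] at hs2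
    nlinarith
  choose S hS1 hS2 using fun i : Fin g =>
    exists_integers p hp.two_le ((h0 g).coeff i * s ^ (g - (i : ℕ))) (δ * s ^ (g - (i : ℕ))) (hD i)
  have hsub : (mk '' ((Fintype.piFinset S : Finset (Fin g → ℤ)) : Set (Fin g → ℤ))) ⊆
      {h ∈ realWeil (p ^ a) g | ¬ (p : ℤ) ∣ h.coeff 0} := by
    rintro h ⟨b, hb, rfl⟩
    rw [mem_coe, Fintype.mem_piFinset] at hb
    refine ⟨⟨mk_monic b, mk_natDegree b, ?_⟩, ?_⟩
    · intro z hz
      rw [aeval_mk_scale hs0] at hz
      have hs' : (s : ℂ) ≠ 0 := by exact_mod_cast hs0.ne'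
      have hz' := (mul_eq_zero.1 hz).resolve_left (pow_ne_zero _ hs')
      have h1 := perturb (g := g) hδ1 (fun i : Fin g => (b i : ℝ) / s ^ (g - (i : ℕ))) (by
        intro i
        have h2 := (hS1 i (b i) (hb i)).1
        have h3 : 0 < s ^ (g - (i : ℕ)) := by positivity
        have h4 : (b i : ℝ) / s ^ (g - (i : ℕ)) - (h0 g).coeff i =
            ((b i : ℝ) - (h0 g).coeff i * s ^ (g - (i : ℕ))) / s ^ (g - (i : ℕ)) := by
          field_simp
        rw [h4, abs_div, abs_of_pos h3, div_le_iff₀ h3]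
        exact h2) (z / s) hz'
      have e1 : z = ((z / s)) * s := by field_simp
      have e2 : z.im = (z / s).im * s := by
        conv_lhs => rw [e1]
        rw [Complex.im_mul_ofReal]
      have e3 : z.re = (z / s).re * s := by
        conv_lhs => rw [e1]
        rw [Complex.re_mul_ofReal]
      obtain ⟨h5, h6, h7⟩ := h1
      refine ⟨by rw [e2, h5, zero_mul], ?_⟩
      have hsq' : s ^ 2 = ((p ^ a : ℕ) : ℝ) := hsq
      rw [e3, ← hsq', mul_pow]
      have h8 : (z / (s : ℂ)).re ^ 2 ≤ 1 := by nlinarith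
      nlinarith [sq_nonneg s]
    · have h1 := mk_coeff b ⟨0, hg⟩
      rw [show (mk b).coeff 0 = b ⟨0, hg⟩ from h1]
      exact (hS1 ⟨0, hg⟩ _ (hb ⟨0, hg⟩)).2
  have hfin : ({h ∈ realWeil (p ^ a) g | ¬ (p : ℤ) ∣ h.coeff 0} : Set ℤ[X]).Finite :=
    (realWeil_finite (p ^ a)).subset fun h hh => hh.1
  have h1 := Set.ncard_le_ncard hsub hfin
  rw [Set.ncard_image_of_injective _ mk_injective, Set.ncard_coe_finset,
    Fintype.card_piFinset] at h1
  calc (δ / 2) ^ g * s ^ expo g = ∏ i : Fin g, (δ * s ^ (g - (i : ℕ)) / 2) := by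
        have h2 : ∀ i : Fin g, δ * s ^ (g - (i : ℕ)) / 2 = (δ / 2) * s ^ (g - (i : ℕ)) := by
          intro i; ring
        simp_rw [h2]
        rw [prod_mul_distrib, prod_const, card_univ, Fintype.card_fin, prod_pow_eq_pow_sum, expo]
    _ ≤ ∏ i : Fin g, ((S i).card : ℝ) :=
        prod_le_prod (fun i _ => by positivity) fun i _ => hS2 i
    _ ≤ _ := by exact_mod_cast h1

end

end Pool.Agent.Work.MP_223b32_ag_56
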