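import Pool.Agent.Work.MP_223b32_ag_56.Upper

/-!
The main theorem: exceptional real Weil polynomials are rare.
-/

namespace Pool.Agent.Work.MP_223b32_ag_56

open Polynomial Finset Pool.Agent.Work.MP_223b32_ag

theorem tateProperty_of {q ℓ : ℕ} [Fact ℓ.Prime] (hq : 1 < q) (h2 : ℓ ≠ 2)
    (hqℓ : (q : ZMod ℓ) ≠ 0) {h : ℤ[X]}
    (hm : h.Monic) (hirr : Irreducible (h.map (Int.castRingHom ℚ)))
    (hns : h.natDegree = 1 → ∀ z : ℂ, z ≠ 0 → aeval (z + q / z) h = 0 → ∀ N : ℕ, 0 < N →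
      z ^ (2 * N) ≠ (q : ℂ) ^ N)
    (hgood : GoodMod q ℓ (h.map (Int.castRingHom (ZMod ℓ)))) : TateProperty q h := by
  intro V _ _ _ F hF n hn heig j
  have h1 := final (P := fun z : ℂ => z ≠ 0 ∧ aeval (z + q / z) h = 0) hF hq
    (fun s hs n j hn _ hprod z hz => count_eq h2 hqℓ hm hirr hns hgood s hs n j hn hprod z hz)
    hn heig j
  have h3 : ((q : ℂ) ^ n) = (((q : ℝ) ^ n : ℝ) : ℂ) := by push_cast; rfl
  rw [h3] at h1
  exact h1

open Classical in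
/-- The set of good classes, for all `ℓ`. -/
noncomputable def goodC (q g : ℕ) (ℓ : ℕ) : Finset (Fin g → ZMod ℓ) :=
  if h : ℓ = 0 then ∅ else
    haveI : NeZero ℓ := ⟨h⟩
    goodSet q g ℓ

theorem mem_goodC {q g ℓ : ℕ} (hℓ : ℓ.Prime) {c : Fin g → ZMod ℓ} :
    c ∈ goodC q g ℓ ↔ GoodMod q ℓ (mk c) := by
  classical
  have : NeZero ℓ := ⟨hℓ.ne_zero⟩
  simp [goodC, dif_neg hℓ.ne_zero, goodSet]

/-- Upper bound for the number of exceptions, in terms of `r ≥ √q` and `Z ^ 3 ≤ r`. -/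
theorem exceptions_le {p a g r Z : ℕ} (hp : p.Prime) (ha : 0 < a) (hg : 1 ≤ g) (hr1 : 1 ≤ r)
    (hr : p ^ a ≤ r ^ 2) (hZ : Z ^ 3 ≤ r) (hZ1 : 1 ≤ Z)
    (hP : (Z : ℝ) / (4 * Real.log Z) ≤
      (((range (Z + 1)).filter fun ℓ => ℓ.Prime ∧ 4 * g + 20 ≤ ℓ ∧ ℓ ≠ p).card : ℝ))
    (hlog : 1 ≤ Real.log Z) :
    (({h ∈ realWeil (p ^ a) g | ¬ TateProperty (p ^ a) h} : Set ℤ[X]).ncard : ℝ) ≤
      (∑ a ∈ Ico 1 g, bigK a * bigK (g - a) : ℕ) * (r : ℝ) ^ (expo g - 1) + 10 +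
        (bigK g : ℝ) * (r : ℝ) ^ expo g *
          ((4 * (4 ^ g * (g.factorial : ℝ)) ^ 2 + 3 * 2 ^ g) * Real.log Z / Z) := by
  classical
  set q := p ^ a with hq
  have hq1 : 1 < q := Nat.one_lt_pow ha.ne' hp.one_lt
  set P := (range (Z + 1)).filter fun ℓ => ℓ.Prime ∧ 4 * g + 20 ≤ ℓ ∧ ℓ ≠ p with hPdef
  have hPmem : ∀ ℓ ∈ P, ℓ.Prime ∧ 4 * g + 20 ≤ ℓ ∧ ℓ ≤ Z ∧ (q : ZMod ℓ) ≠ 0 := by
    intro ℓ hℓ
    obtain ⟨h1, h2, h3, h4⟩ := mem_filter.1 hℓ
    refine ⟨h2, h3, Nat.lt_succ_iff.1 (mem_range.1 h1), ?_⟩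
    rw [Ne, ZMod.natCast_eq_zero_iff]
    intro h5
    exact h4 ((Nat.prime_dvd_prime_iff_eq h2 hp).1 (h2.dvd_of_dvd_pow h5))
  set NF := (box (rad g r)).filter fun b => ∀ ℓ ∈ P, red ℓ b ∉ goodC q g ℓ with hNF
  set Red : Set ℤ[X] := {h ∈ realWeil q g | ¬ Irreducible (h.map (Int.castRingHom ℚ))} with hRed
  set Sup : Set ℤ[X] := {h ∈ realWeil q 1 | ∃ z : ℂ, z ≠ 0 ∧ aeval (z + q / z) h = 0 ∧
      ∃ N : ℕ, 0 < N ∧ z ^ (2 * N) = (q : ℂ) ^ N} with hSup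
  have hsub : ({h ∈ realWeil q g | ¬ TateProperty q h} : Set ℤ[X]) ⊆
      Red ∪ (Sup ∪ mk '' (NF : Set (Fin g → ℤ))) := by
    rintro h ⟨hh, hnt⟩
    by_cases hirr : Irreducible (h.map (Int.castRingHom ℚ))
    swap
    · exact Or.inl ⟨hh, hirr⟩
    by_cases hsup : h ∈ Sup
    · exact Or.inr (Or.inl hsup)
    refine Or.inr (Or.inr ?_)
    obtain ⟨b, hb, hbh⟩ := realWeil_subset hr hh
    refine ⟨b, mem_coe.2 (mem_filter.2 ⟨mem_coe.1 hb, fun ℓ hℓ hmem => hnt ?_⟩), hbh⟩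
    obtain ⟨h1, h2, h3, h4⟩ := hPmem ℓ hℓ
    have : Fact ℓ.Prime := ⟨h1⟩
    refine tateProperty_of (ℓ := ℓ) hq1 (by omega) h4 hh.1 hirr ?_ ?_
    · intro hd z hz0 hz N hN h0
      exact hsup ⟨⟨hh.1, hd, hh.2.2⟩, z, hz0, hz, N, hN, h0⟩
    · rw [← hbh, mk_map]
      exact (mem_goodC h1).1 hmem
  have hfinR : Red.Finite := (realWeil_finite q).subset fun h hh => hh.1
  have hfinS : Sup.Finite := (realWeil_finite q).subset fun h hh => hh.1
  have hfinN : (mk '' (NF : Set (Fin g → ℤ))).Finite := (finite_toSet _).image _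
  have h1 : ({h ∈ realWeil q g | ¬ TateProperty q h} : Set ℤ[X]).ncard ≤
      Red.ncard + (Sup.ncard + NF.card) := by
    refine (Set.ncard_le_ncard hsub (hfinR.union (hfinS.union hfinN))).trans ?_
    refine (Set.ncard_union_le _ _).trans (Nat.add_le_add_left ?_ _)
    refine (Set.ncard_union_le _ _).trans (Nat.add_le_add_left ?_ _)
    rw [Set.ncard_image_of_injective _ mk_injective, Set.ncard_coe_finset]
  have h2 : Red.ncard ≤ (∑ a ∈ Ico 1 g, bigK a * bigK (g - a)) * r ^ (expo g - 1) :=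
    reducible_count hg hr1 hr
  have h3 : Sup.ncard ≤ 10 := sup_count q (by omega)
  -- the sieve
  have hZpos : (0 : ℝ) < Z := by exact_mod_cast hZ1
  have hPpos : (0 : ℝ) < P.card := lt_of_lt_of_le (by positivity) hP
  set δ₀ : ℝ := 1 / (4 ^ g * (g.factorial : ℝ)) with hδ₀
  have hfac : (0 : ℝ) < (g.factorial : ℝ) := by exact_mod_cast g.factorial_pos
  have hδ₀pos : 0 < δ₀ := by positivity
  have h4 := sieve (rad g r) P (fun ℓ hℓ => (hPmem ℓ hℓ).1) (goodC q g) (δ₀ := δ₀)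
    (ρ := 1 / Z) (Z := Z) hδ₀pos
    (by
      intro ℓ hℓ
      obtain ⟨h1, h2, h3, h4⟩ := hPmem ℓ hℓ
      have : Fact ℓ.Prime := ⟨h1⟩
      rw [goodC, dif_neg h1.ne_zero]
      exact card_goodSet (by omega) h4 hg h2)
    (by positivity) (by rw [div_le_one hZpos]; exact_mod_cast hZ1)
    (fun ℓ hℓ => by exact_mod_cast (hPmem ℓ hℓ).2.2.1)
    (by
      intro i
      rw [one_div, inv_mul_eq_div, le_div_iff₀ hZpos]
      have h5 : r ≤ rad g r i := by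
        rw [rad]
        calc r ≤ 2 * r := by omega
          _ ≤ (2 * r) ^ (g - (i : ℕ)) := Nat.le_self_pow (by omega) _
          _ ≤ (2 * r) ^ (g - (i : ℕ)) * g.choose i :=
            Nat.le_mul_of_pos_right _ (Nat.choose_pos i.2.le)
      have h6 : Z ^ 2 * Z ≤ 2 * rad g r i + 1 := by
        have : Z ^ 2 * Z = Z ^ 3 := by ring
        omega
      exact_mod_cast h6)
  have h5 : (NF.card : ℝ) ≤ (box (rad g r)).card *
      ((4 * (4 ^ g * (g.factorial : ℝ)) ^ 2 + 3 * 2 ^ g) * Real.log Z / Z) := by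
    have h6 : (NF.card : ℝ) ≤
        (box (rad g r)).card * (1 / δ₀ ^ 2 + 3 * (2 ^ g * (1 / Z)) * P.card) / P.card := by
      rw [le_div_iff₀ hPpos, mul_comm]
      exact h4
    refine h6.trans ?_
    rw [mul_div_assoc]
    refine mul_le_mul_of_nonneg_left ?_ (Nat.cast_nonneg _)
    rw [add_div, mul_div_assoc (3 * (2 ^ g * (1 / (Z : ℝ)))), div_self hPpos.ne', mul_one]
    have h7 : 1 / δ₀ ^ 2 = (4 ^ g * (g.factorial : ℝ)) ^ 2 := by
      rw [hδ₀, one_div_pow, one_div_one_div]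
    rw [h7]
    have h8 : (4 ^ g * (g.factorial : ℝ)) ^ 2 / P.card ≤
        (4 ^ g * (g.factorial : ℝ)) ^ 2 * (4 * Real.log Z / Z) := by
      rw [div_le_iff₀ hPpos, mul_assoc]
      refine le_mul_of_one_le_right (by positivity) ?_
      have h9 : 4 * Real.log Z / Z * (Z / (4 * Real.log Z)) = 1 := by
        have : Real.log Z ≠ 0 := by linarith
        field_simp
      rw [← h9]
      exact mul_le_mul_of_nonneg_left hP (by positivity)
    have h9 : 3 * (2 ^ g * (1 / (Z : ℝ))) ≤ 3 * 2 ^ g * Real.log Z / Z := by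
      rw [show 3 * (2 ^ g * (1 / (Z : ℝ))) = 3 * 2 ^ g * 1 / Z by ring]
      gcongr
    calc (4 ^ g * (g.factorial : ℝ)) ^ 2 / P.card + 3 * (2 ^ g * (1 / (Z : ℝ)))
        ≤ (4 ^ g * (g.factorial : ℝ)) ^ 2 * (4 * Real.log Z / Z) +
          3 * 2 ^ g * Real.log Z / Z := add_le_add h8 h9
      _ = _ := by ring
  have h6 : ((box (rad g r)).card : ℝ) ≤ (bigK g : ℝ) * (r : ℝ) ^ expo g := by
    exact_mod_cast card_box_le hr1
  have h7 : (({h ∈ realWeil q g | ¬ TateProperty q h} : Set ℤ[X]).ncard : ℝ) ≤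
      Red.ncard + (Sup.ncard + NF.card) := by exact_mod_cast h1
  have h8 : (Red.ncard : ℝ) ≤
      (∑ a ∈ Ico 1 g, bigK a * bigK (g - a) : ℕ) * (r : ℝ) ^ (expo g - 1) := by exact_mod_cast h2
  have h9 : (Sup.ncard : ℝ) ≤ 10 := by exact_mod_cast h3
  have h10 : (NF.card : ℝ) ≤ (bigK g : ℝ) * (r : ℝ) ^ expo g *
          ((4 * (4 ^ g * (g.factorial : ℝ)) ^ 2 + 3 * 2 ^ g) * Real.log Z / Z) := by
    refine h5.trans (mul_le_mul_of_nonneg_right h6 ?_)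
    have : 0 ≤ Real.log Z := by linarith
    positivity
  linarith

theorem rpow_conv {q s : ℝ} (hs : 0 < s) (hq : s ^ 2 = q) (g : ℕ) :
    q ^ ((g : ℝ) * (g + 1) / 4) = s ^ expo g := by
  rw [← hq, ← Real.rpow_natCast s 2, ← Real.rpow_mul hs.le, ← Real.rpow_natCast s (expo g)]
  congr 1
  have h1 : (2 : ℝ) * expo g = g * (g + 1) := by exact_mod_cast two_mul_expo g
  push_cast
  linarith

theorem main {g : ℕ} (hg : 1 ≤ g) : ∃ c > (0 : ℝ), ∃ C > (0 : ℝ), ∃ Q₀ : ℕ,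
    ∀ p a : ℕ, p.Prime → 0 < a → Q₀ ≤ p ^ a →
      (realWeil (p ^ a) g).Finite ∧
      c * ((p ^ a : ℕ) : ℝ) ^ ((g : ℝ) * (g + 1) / 4) ≤
        ({h ∈ realWeil (p ^ a) g | ¬ (p : ℤ) ∣ h.coeff 0} : Set ℤ[X]).ncard ∧
      (({h ∈ realWeil (p ^ a) g | ¬ TateProperty (p ^ a) h} : Set ℤ[X]).ncard : ℝ) ≤
        C * ((p ^ a : ℕ) : ℝ) ^ ((g : ℝ) * (g + 1) / 4 - 1 / 6) *
          Real.log ((p ^ a : ℕ) : ℝ) := by
  obtain ⟨κ, hκ, s₀, hlow⟩ := lower hg
  obtain ⟨Z₀, hZ₀⟩ := primes_lower (4 * g + 20)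
  set A : ℝ := ((∑ a ∈ Ico 1 g, bigK a * bigK (g - a) : ℕ) : ℝ) with hA
  set B : ℝ := 4 * (4 ^ g * (g.factorial : ℝ)) ^ 2 + 3 * 2 ^ g with hB
  have hA0 : 0 ≤ A := Nat.cast_nonneg _
  have hB0 : 0 < B := by positivity
  set C : ℝ := A * 2 ^ expo g + 10 + 2 * 2 ^ expo g * bigK g * B with hC
  have hC0 : 0 < C := by positivity
  refine ⟨κ, hκ, C, hC0, max ((Z₀ + 8) ^ 6) ⌈s₀ ^ 2⌉₊, fun p a hp ha hQ => ?_⟩
  have hQ1 : (Z₀ + 8) ^ 6 ≤ p ^ a := (le_max_left _ _).trans hQ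
  have hQ2 : ⌈s₀ ^ 2⌉₊ ≤ p ^ a := (le_max_right _ _).trans hQ
  set q : ℝ := ((p ^ a : ℕ) : ℝ) with hq
  have hq6 : ((Z₀ : ℝ) + 8) ^ 6 ≤ q := by rw [hq]; exact_mod_cast hQ1
  have hZ₀0 : (0 : ℝ) ≤ Z₀ := Nat.cast_nonneg _
  have hqpos : 0 < q := lt_of_lt_of_le (by positivity) hq6
  set s : ℝ := √q with hs
  have hs2 : s ^ 2 = q := Real.sq_sqrt hqpos.le
  have hspos : 0 < s := Real.sqrt_pos.2 hqpos
  -- the cube root `w` of `s`
  set w : ℝ := s ^ ((1 : ℝ) / 3) with hw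
  have hwpos : 0 < w := Real.rpow_pos_of_pos hspos _
  have hw3 : w ^ 3 = s := by
    rw [hw, ← Real.rpow_natCast, ← Real.rpow_mul hspos.le]
    norm_num
  have hw8 : (Z₀ : ℝ) + 8 ≤ w := by
    by_contra hcon
    push Not at hcon
    have h1 : w ^ 6 < ((Z₀ : ℝ) + 8) ^ 6 := pow_lt_pow_left₀ hcon hwpos.le (by norm_num)
    have h2 : w ^ 6 = q := by
      rw [← hs2, ← hw3]; ring
    linarith
  have hw1 : 8 ≤ w := by linarith
  have hsw : w ≤ s := by
    rw [← hw3]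
    nlinarith [mul_pos hwpos hwpos]
  have hs8 : 8 ≤ s := hw1.trans hsw
  have hss₀ : s₀ ≤ s := by
    have h1 : s₀ ^ 2 ≤ s ^ 2 := by
      rw [hs2]
      have h2 := Nat.le_ceil (s₀ ^ 2)
      have h3 : ((⌈s₀ ^ 2⌉₊ : ℕ) : ℝ) ≤ q := by rw [hq]; exact_mod_cast hQ2
      linarith
    by_contra hcon
    push Not at hcon
    nlinarith
  refine ⟨realWeil_finite _, ?_, ?_⟩
  · rw [rpow_conv hspos hs2]
    exact hlow p a hp s hss₀ hs2
  -- the natural number `r`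
  set r : ℕ := ⌈s⌉₊ with hr
  have hr1 : s ≤ r := Nat.le_ceil s
  have hr2 : (r : ℝ) ≤ 2 * s := by
    have := Nat.ceil_lt_add_one hspos.le
    rw [← hr] at this
    linarith
  have hrpos : (0 : ℝ) < r := by linarith
  have hqr : p ^ a ≤ r ^ 2 := by
    have h1 : q ≤ (r : ℝ) ^ 2 := by rw [← hs2]; gcongr
    rw [hq] at h1
    exact_mod_cast h1
  -- the cube root `v` of `r`
  set v : ℝ := (r : ℝ) ^ ((1 : ℝ) / 3) with hv
  have hvpos : 0 < v := Real.rpow_pos_of_pos hrpos _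
  have hv3 : v ^ 3 = r := by
    rw [hv, ← Real.rpow_natCast, ← Real.rpow_mul hrpos.le]
    norm_num
  have hwv : w ≤ v := by
    rw [hw, hv]
    exact Real.rpow_le_rpow hspos.le hr1 (by norm_num)
  set Z : ℕ := ⌊v⌋₊ with hZ
  have hZv : (Z : ℝ) ≤ v := Nat.floor_le hvpos.le
  have hZv2 : v / 2 ≤ Z := by
    have := Nat.lt_floor_add_one v
    rw [← hZ] at this
    linarith
  have hZ3 : Z ^ 3 ≤ r := by
    have h1 : (Z : ℝ) ^ 3 ≤ r := by rw [← hv3]; gcongr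
    exact_mod_cast h1
  have hZZ₀ : Z₀ ≤ Z := by
    rw [hZ]
    exact Nat.le_floor (by linarith)
  have hZ3' : (4 : ℝ) ≤ Z := by linarith
  have hlogZ : 1 ≤ Real.log Z := by
    rw [Real.le_log_iff_exp_le (by linarith)]
    have := Real.exp_one_lt_d9
    linarith
  have key := exceptions_le (g := g) (r := r) (Z := Z) hp ha hg
    (by exact_mod_cast (by linarith : (1 : ℝ) ≤ r)) hqr hZ3
    (by exact_mod_cast (by linarith : (1 : ℝ) ≤ Z)) (hZ₀ Z hZZ₀ p) hlogZ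
  refine key.trans ?_
  rw [← hA, ← hB]
  -- conversion of the right-hand side
  have hconv : q ^ ((g : ℝ) * (g + 1) / 4 - 1 / 6) = s ^ expo g / w := by
    rw [Real.rpow_sub hqpos, rpow_conv hspos hs2]
    congr 1
    rw [← hs2, ← Real.rpow_natCast s 2, ← Real.rpow_mul hspos.le, hw]
    norm_num
  rw [hconv]
  have hE : 1 ≤ expo g := by
    have := two_mul_expo g
    nlinarith
  have hsE : 0 < s ^ expo g := by positivity
  have hlogq : Real.log q = 2 * Real.log s := by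
    rw [← hs2, Real.log_pow]; norm_num
  have hlogs : 1 ≤ Real.log s := by
    rw [Real.le_log_iff_exp_le hspos]
    have := Real.exp_one_lt_d9
    linarith
  have hlogq1 : 1 ≤ Real.log q := by linarith
  have hlogZq : Real.log Z ≤ Real.log q := by
    have h1 : (Z : ℝ) ≤ q := by
      calc (Z : ℝ) ≤ v := hZv
        _ ≤ v ^ 3 := by
            have : 1 ≤ v := by linarith
            nlinarith [mul_pos hvpos hvpos]
        _ = r := hv3
        _ ≤ 2 * s := hr2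
        _ ≤ s ^ 2 := by nlinarith
        _ = q := hs2
    exact Real.log_le_log (by linarith) h1
  set T : ℝ := s ^ expo g / w with hT
  have hTpos : 0 < T := by positivity
  have t1 : (r : ℝ) ^ (expo g - 1) ≤ 2 ^ expo g * T := by
    calc (r : ℝ) ^ (expo g - 1) ≤ (2 * s) ^ (expo g - 1) := by gcongr
      _ = 2 ^ (expo g - 1) * s ^ (expo g - 1) := by rw [mul_pow]
      _ ≤ 2 ^ expo g * T := by
          refine mul_le_mul (pow_le_pow_right₀ (by norm_num) (by omega)) ?_ (by positivity)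
            (by positivity)
          rw [hT, le_div_iff₀ hwpos]
          calc s ^ (expo g - 1) * w ≤ s ^ (expo g - 1) * s := by gcongr
            _ = s ^ expo g := by rw [← pow_succ]; congr 1; omega
  have t2 : 1 ≤ T := by
    rw [hT, le_div_iff₀ hwpos, one_mul]
    exact hsw.trans (le_self_pow₀ (by linarith) (by omega))
  have t3 : (r : ℝ) ^ expo g * (Real.log Z / Z) ≤ 2 * 2 ^ expo g * T * Real.log q := by
    have e1 : (r : ℝ) ^ expo g ≤ 2 ^ expo g * s ^ expo g := by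
      rw [← mul_pow]; gcongr
    have e2 : Real.log Z / Z ≤ Real.log q / (w / 2) := by
      have : w / 2 ≤ Z := by linarith
      gcongr
    calc (r : ℝ) ^ expo g * (Real.log Z / Z) ≤
          (2 ^ expo g * s ^ expo g) * (Real.log q / (w / 2)) := by gcongr
      _ = 2 * 2 ^ expo g * T * Real.log q := by rw [hT]; field_simp
  have f1 : A * (r : ℝ) ^ (expo g - 1) ≤ A * 2 ^ expo g * T * Real.log q := by
    calc A * (r : ℝ) ^ (expo g - 1) ≤ A * (2 ^ expo g * T) := by gcongr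
      _ ≤ A * (2 ^ expo g * T) * Real.log q :=
          le_mul_of_one_le_right (by positivity) hlogq1
      _ = _ := by ring
  have f2 : (10 : ℝ) ≤ 10 * T * Real.log q := by
    have : 1 ≤ T * Real.log q := one_le_mul_of_one_le_of_one_le t2 hlogq1
    linarith
  have f3 : (bigK g : ℝ) * (r : ℝ) ^ expo g * (B * Real.log Z / Z) ≤
      2 * 2 ^ expo g * bigK g * B * T * Real.log q := by
    calc (bigK g : ℝ) * (r : ℝ) ^ expo g * (B * Real.log Z / Z)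
        = (bigK g : ℝ) * B * ((r : ℝ) ^ expo g * (Real.log Z / Z)) := by ring
      _ ≤ (bigK g : ℝ) * B * (2 * 2 ^ expo g * T * Real.log q) := by gcongr
      _ = _ := by ring
  calc A * (r : ℝ) ^ (expo g - 1) + 10 + (bigK g : ℝ) * (r : ℝ) ^ expo g * (B * Real.log Z / Z)
      ≤ A * 2 ^ expo g * T * Real.log q + 10 * T * Real.log q +
        2 * 2 ^ expo g * bigK g * B * T * Real.log q := by linarith
    _ = C * T * Real.log q := by rw [hC]; ring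

end Pool.Agent.Work.MP_223b32_ag_56
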