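import Pool.Agent.Work.MP_223b32_ag_56.Lower
import Pool.Agent.Work.MP_223b32_ag.Pole

/-!
Upper bounds for the number of exceptional real Weil polynomials.
-/

namespace Pool.Agent.Work.MP_223b32_ag_56

open Polynomial Finset

theorem two_mul_expo (g : ℕ) : 2 * expo g = g * (g + 1) := by
  have h1 : expo g = ∑ i ∈ range g, (g - i) := by
    rw [expo, Fin.sum_univ_eq_sum_range (fun i => g - i) g]
  have h2 : ∑ i ∈ range g, (g - i) = ∑ i ∈ range g, (i + 1) := by
    rw [← sum_range_reflect]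
    refine sum_congr rfl fun i hi => ?_
    have := mem_range.1 hi
    omega
  rw [h1, h2, sum_add_distrib, sum_const, card_range, smul_eq_mul, mul_one, mul_add]
  have h3 := Finset.sum_range_id_mul_two g
  cases g with
  | zero => simp
  | succ n =>
    simp only [Nat.add_sub_cancel] at h3
    nlinarith

theorem expo_add (a b : ℕ) : expo (a + b) = expo a + expo b + a * b := by
  have h1 := two_mul_expo (a + b)
  have h2 := two_mul_expo a
  have h3 := two_mul_expo b
  nlinarith

/-- The constant in the size of the box. -/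
def bigK (g : ℕ) : ℕ := ∏ i : Fin g, (3 * 2 ^ (g - (i : ℕ)) * g.choose i)

theorem card_box_le {g r : ℕ} (hr : 1 ≤ r) :
    (box (rad g r)).card ≤ bigK g * r ^ expo g := by
  rw [card_box, bigK, expo, ← prod_pow_eq_pow_sum, ← prod_mul_distrib]
  refine prod_le_prod' fun i _ => ?_
  have h1 : 1 ≤ rad g r i := by
    rw [rad]
    exact Nat.mul_pos (by positivity) (Nat.choose_pos i.2.le)
  calc 2 * rad g r i + 1 ≤ 3 * rad g r i := by omega
    _ = _ := by rw [rad, mul_pow]; ring

theorem card_realWeil_le {q g r : ℕ} (hr1 : 1 ≤ r) (hr : q ≤ r ^ 2) :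
    (realWeil q g).ncard ≤ bigK g * r ^ expo g := by
  refine (Set.ncard_le_ncard (realWeil_subset hr) ((finite_toSet _).image _)).trans ?_
  rw [Set.ncard_image_of_injective _ mk_injective, Set.ncard_coe_finset]
  exact card_box_le hr1

theorem reducible_count {q g r : ℕ} (hg : 1 ≤ g) (hr1 : 1 ≤ r) (hr : q ≤ r ^ 2) :
    ({h ∈ realWeil q g | ¬ Irreducible (h.map (Int.castRingHom ℚ))} : Set ℤ[X]).ncard ≤
      (∑ a ∈ Ico 1 g, bigK a * bigK (g - a)) * r ^ (expo g - 1) := by
  classical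
  let W : ∀ a : ℕ, Finset ℤ[X] := fun a => (realWeil_finite (g := a) q).toFinset
  have hW : ∀ a, (W a).card ≤ bigK a * r ^ expo a := by
    intro a
    have := card_realWeil_le (q := q) (g := a) hr1 hr
    rwa [Set.ncard_eq_toFinset_card _ (realWeil_finite (g := a) q)] at this
  have hsub : ({h ∈ realWeil q g | ¬ Irreducible (h.map (Int.castRingHom ℚ))} : Set ℤ[X]) ⊆
      (((Ico 1 g).biUnion fun a => (W a ×ˢ W (g - a)).image fun p => p.1 * p.2 :
        Finset ℤ[X]) : Set ℤ[X]) := by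
    rintro h ⟨⟨hm, hd, hroots⟩, hirr⟩
    have h1 : ¬ Irreducible h := by
      intro h0
      exact hirr ((hm.irreducible_iff_irreducible_map_fraction_map (K := ℚ)).1 h0)
    have hne1 : h ≠ 1 := by
      rintro rfl
      rw [natDegree_one] at hd
      omega
    rw [hm.irreducible_iff_natDegree, not_and] at h1
    have h1' := h1 hne1
    push Not at h1'
    obtain ⟨u, v, hu, hv, huv, hu0, hv0⟩ := h1'
    have hdeg : u.natDegree + v.natDegree = g := by
      rw [← hd, ← huv, hu.natDegree_mul hv]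
    rw [mem_coe, mem_biUnion]
    refine ⟨u.natDegree, mem_Ico.2 ⟨by omega, by omega⟩, mem_image.2 ⟨(u, v), ?_, huv⟩⟩
    rw [mem_product]
    simp only [W, Set.Finite.mem_toFinset]
    refine ⟨⟨hu, rfl, fun z hz => hroots z ?_⟩, ⟨hv, by omega, fun z hz => hroots z ?_⟩⟩
    · rw [← huv, map_mul, hz, zero_mul]
    · rw [← huv, map_mul, hz, mul_zero]
  refine (Set.ncard_le_ncard hsub (finite_toSet _)).trans ?_
  rw [Set.ncard_coe_finset, sum_mul]
  refine card_biUnion_le.trans (sum_le_sum fun a ha => ?_)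
  obtain ⟨ha1, ha2⟩ := mem_Ico.1 ha
  refine card_image_le.trans ?_
  rw [card_product]
  calc (W a).card * (W (g - a)).card ≤ (bigK a * r ^ expo a) * (bigK (g - a) * r ^ expo (g - a)) :=
        Nat.mul_le_mul (hW a) (hW (g - a))
    _ = bigK a * bigK (g - a) * r ^ (expo a + expo (g - a)) := by rw [pow_add]; ring
    _ ≤ _ := by
        refine Nat.mul_le_mul_left _ (Nat.pow_le_pow_right hr1 ?_)
        have h1 := expo_add a (g - a)
        rw [Nat.add_sub_cancel' ha2.le] at h1
        have h2 : 1 ≤ a * (g - a) := Nat.mul_pos ha1 (by omega)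
        omega

/-- Supersingular polynomials of degree one. -/
theorem sup_count (q : ℕ) (hq : q ≠ 0) :
    ({h ∈ realWeil q 1 | ∃ z : ℂ, z ≠ 0 ∧ aeval (z + q / z) h = 0 ∧ ∃ N : ℕ, 0 < N ∧
      z ^ (2 * N) = (q : ℂ) ^ N} : Set ℤ[X]).ncard ≤ 10 := by
  classical
  have hqC : (q : ℂ) ≠ 0 := by exact_mod_cast hq
  let T : ℕ → Finset ℤ := fun k => (Icc (-(3 * q : ℤ)) (3 * q)).filter fun b => b ^ 2 = k * q
  have hT : ∀ k, (T k).card ≤ 2 := by
    intro k
    by_cases h : ∃ b, b ∈ T k
    · obtain ⟨b, hb⟩ := h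
      calc (T k).card ≤ ({b, -b} : Finset ℤ).card := by
            refine card_le_card fun u hu => ?_
            have hb' := (mem_filter.1 hb).2
            have hu' := (mem_filter.1 hu).2
            rcases sq_eq_sq_iff_eq_or_eq_neg.1 (hu'.trans hb'.symm) with h | h <;> simp [h]
        _ ≤ 2 := card_le_two
    · push Not at h
      rw [eq_empty_of_forall_notMem h]
      simp
  have hsub : ({h ∈ realWeil q 1 | ∃ z : ℂ, z ≠ 0 ∧ aeval (z + q / z) h = 0 ∧ ∃ N : ℕ, 0 < N ∧
      z ^ (2 * N) = (q : ℂ) ^ N} : Set ℤ[X]) ⊆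
      (((range 5).biUnion T).image (fun b : ℤ => (X + C b : ℤ[X])) : Finset ℤ[X]) := by
    rintro h ⟨⟨hm, hd, hroots⟩, z, hz0, hz, N, hN, hzN⟩
    have h1 : h = X + C (h.coeff 0) := by
      have := hm.as_sum
      rw [hd] at this
      simpa using this
    set b := h.coeff 0 with hb
    rw [mem_coe, mem_image]
    refine ⟨b, ?_, h1.symm⟩
    -- the root of `h`
    have hzb : z + q / z = -(b : ℂ) := by
      rw [h1] at hz
      rw [map_add, aeval_X, aeval_C, algebraMap_int_eq, eq_intCast] at hz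
      exact eq_neg_of_add_eq_zero_left hz
    have hroot : aeval (-(b : ℂ)) h = 0 := by
      rw [← hzb]; exact hz
    obtain ⟨_, h3⟩ := hroots _ hroot
    have h4 : b ^ 2 ≤ 4 * q := by
      have : (-(b : ℂ)).re = -(b : ℝ) := by simp
      rw [this] at h3
      have h5 : (b : ℝ) ^ 2 ≤ 4 * q := by nlinarith
      exact_mod_cast h5
    -- integrality
    set u : ℂ := z ^ 2 / q with hu
    have huN : u ^ N = 1 := by
      rw [hu, div_pow, ← pow_mul, hzN, div_self (pow_ne_zero _ hqC)]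
    have hu0 : u ≠ 0 := div_ne_zero (pow_ne_zero _ hz0) hqC
    have hint1 : IsIntegral ℤ u := IsIntegral.of_pow hN (by rw [huN]; exact isIntegral_one)
    have hint2 : IsIntegral ℤ u⁻¹ := IsIntegral.of_pow hN (by
      rw [inv_pow, huN, inv_one]; exact isIntegral_one)
    have hsum : u + u⁻¹ + 2 = (algebraMap ℚ ℂ) ((b : ℚ) ^ 2 / q) := by
      have e1 : (algebraMap ℚ ℂ) ((b : ℚ) ^ 2 / q) = (-(b : ℂ)) ^ 2 / q := by
        rw [map_div₀, map_pow, map_natCast, map_intCast, neg_sq]
      rw [e1, ← hzb, hu]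
      field_simp
      ring
    have hint : IsIntegral ℤ ((b : ℚ) ^ 2 / q) := by
      have h5 : IsIntegral ℤ (u + u⁻¹ + 2) := (hint1.add hint2).add (by
        have := isIntegral_algebraMap (R := ℤ) (A := ℂ) (x := 2)
        simpa using this)
      rw [hsum] at h5
      exact (isIntegral_algebraMap_iff (algebraMap ℚ ℂ).injective).1 h5
    obtain ⟨k, hk⟩ := IsIntegrallyClosed.isIntegral_iff.1 hint
    have hk' : (b : ℚ) ^ 2 = k * q := by
      have hqQ : (q : ℚ) ≠ 0 := by exact_mod_cast hq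
      have : ((k : ℤ) : ℚ) = (b : ℚ) ^ 2 / q := hk
      rw [this]; field_simp
    have hk2 : b ^ 2 = k * q := by exact_mod_cast hk'
    have hqpos : (0 : ℤ) < q := by exact_mod_cast Nat.pos_of_ne_zero hq
    have hk0 : 0 ≤ k := by
      by_contra hcon
      push Not at hcon
      nlinarith [sq_nonneg b]
    have hk4 : k ≤ 4 := by
      by_contra hcon
      push Not at hcon
      nlinarith
    obtain ⟨k', rfl⟩ := Int.eq_ofNat_of_zero_le hk0
    rw [mem_biUnion]
    refine ⟨k', mem_range.2 (by omega), mem_filter.2 ⟨mem_Icc.2 ?_, by exact_mod_cast hk2⟩⟩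
    constructor <;> nlinarith
  refine (Set.ncard_le_ncard hsub (finite_toSet _)).trans ?_
  rw [Set.ncard_coe_finset]
  refine card_image_le.trans (card_biUnion_le.trans ?_)
  calc ∑ k ∈ range 5, (T k).card ≤ ∑ _k ∈ range 5, 2 := sum_le_sum fun k _ => hT k
    _ = 10 := by simp

/-- Counting primes. -/
theorem primes_lower (A : ℕ) : ∃ Z₀ : ℕ, ∀ Z : ℕ, Z₀ ≤ Z → ∀ p : ℕ,
    (Z : ℝ) / (4 * Real.log Z) ≤
      (((range (Z + 1)).filter fun ℓ => ℓ.Prime ∧ A ≤ ℓ ∧ ℓ ≠ p).card : ℝ) := by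
  have h1 : ∀ᶠ x : ℝ in Filter.atTop, Real.log (x + 1) ≤ x / 10 := by
    have h2 := Real.isLittleO_log_id_atTop.bound (show (0 : ℝ) < 1 / 20 by norm_num)
    have h3 := (Filter.tendsto_atTop_add_const_right Filter.atTop (1 : ℝ) Filter.tendsto_id).eventually h2
    filter_upwards [h3, Filter.eventually_ge_atTop 1] with x hx hx1
    simp only [id] at hx
    rw [Real.norm_eq_abs, Real.norm_eq_abs, abs_of_pos (by linarith : (0 : ℝ) < x + 1)] at hx
    have := le_abs_self (Real.log (x + 1))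
    linarith
  have h2 : ∀ᶠ x : ℝ in Filter.atTop, ((A : ℝ) + 1) * (4 * Real.log x) ≤ x / 10 := by
    have h3 := Real.isLittleO_log_id_atTop.bound
      (show (0 : ℝ) < 1 / (40 * ((A : ℝ) + 1)) by positivity)
    filter_upwards [h3, Filter.eventually_ge_atTop 1] with x hx hx1
    simp only [id] at hx
    rw [Real.norm_eq_abs, Real.norm_eq_abs, abs_of_pos (by linarith : (0 : ℝ) < x)] at hx
    have h4 := (le_abs_self (Real.log x)).trans hx
    have hA : (0 : ℝ) < (A : ℝ) + 1 := by positivity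
    calc ((A : ℝ) + 1) * (4 * Real.log x) ≤
          ((A : ℝ) + 1) * (4 * (1 / (40 * ((A : ℝ) + 1)) * x)) := by gcongr
      _ = x / 10 := by field_simp; norm_num
  have h3 := (tendsto_natCast_atTop_atTop (R := ℝ)).eventually (h1.and (h2.and
    (Filter.eventually_ge_atTop 3)))
  obtain ⟨Z₀, hZ₀⟩ := Filter.eventually_atTop.1 h3
  refine ⟨Z₀, fun Z hZ p => ?_⟩
  obtain ⟨e1, e2, e3⟩ := hZ₀ Z hZ
  have hlog : 0 < Real.log Z := Real.log_pos (by linarith)
  have hpsi := (Chebyshev.psi_ge Z).trans (Chebyshev.psi_le_primeCounting_mul_log Z)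
  have hlog2 : (0.69 : ℝ) < Real.log 2 := by
    have := Real.log_two_gt_d9
    linarith
  have hpc : (Nat.primeCounting Z : ℝ) ≤
      (((range (Z + 1)).filter fun ℓ => ℓ.Prime ∧ A ≤ ℓ ∧ ℓ ≠ p).card : ℝ) + (A + 1) := by
    have h4 : Nat.primeCounting Z = ((range (Z + 1)).filter Nat.Prime).card := by
      rw [Nat.primeCounting, Nat.primeCounting', Nat.count_eq_card_filter_range]
    have h5 : ((range (Z + 1)).filter Nat.Prime) ⊆
        ((range (Z + 1)).filter fun ℓ => ℓ.Prime ∧ A ≤ ℓ ∧ ℓ ≠ p) ∪ (range A ∪ {p}) := by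
      intro ℓ hℓ
      obtain ⟨h6, h7⟩ := mem_filter.1 hℓ
      simp only [mem_union, mem_filter, mem_singleton, mem_range]
      rw [mem_range] at h6
      by_cases h8 : ℓ = p
      · exact Or.inr (Or.inr h8)
      · rcases Nat.lt_or_ge ℓ A with h9 | h9
        · exact Or.inr (Or.inl h9)
        · exact Or.inl ⟨h6, h7, h9, h8⟩
    have h6 := (card_le_card h5).trans (card_union_le _ _)
    have h7 : (range A ∪ {p} : Finset ℕ).card ≤ A + 1 := by
      refine (card_union_le _ _).trans ?_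
      rw [card_range, card_singleton]
    rw [← h4] at h6
    exact_mod_cast h6.trans (Nat.add_le_add_left h7 _)
  rw [div_le_iff₀ (by positivity)]
  set π := (Nat.primeCounting Z : ℝ)
  set c := (((range (Z + 1)).filter fun ℓ => ℓ.Prime ∧ A ≤ ℓ ∧ ℓ ≠ p).card : ℝ)
  have h8 : π * (4 * Real.log Z) ≤ (c + (A + 1)) * (4 * Real.log Z) := by gcongr
  have h9 : (Z : ℝ) * 0.69 - Z / 10 ≤ π * Real.log Z := by
    have : (Z : ℝ) * 0.69 ≤ Z * Real.log 2 := by gcongr
    linarith
  nlinarith

end Pool.Agent.Work.MP_223b32_ag_56
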